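import Pool.Agent.H848.HM.Cnj

/-!
# Project HM: the conjugate of a good twist is good
-/

set_option autoImplicit false

open scoped Classical

namespace Pool.Agent.H848.HM

open Finset
open Pool.Agent.H519.Q7 (PP PS PD c3 c6 c7 tO tO_sum s_rec s_self)
open Pool.Agent.H519.KW.Fd (OK om s7 Adm Primary sym row Regular Bordered Good VeryGood)
open Pool.Agent.H519.KW.Dn (primary_iff sym_eq s_neg_one)

/-- the kernel of the transposed matrix -/
theorem ker_tr {I : Type} [Fintype I] (A : Matrix I I (ZMod 2))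
    (h : ∀ v, A.mulVec v = 0 → v = 0) : ∀ v, A.transpose.mulVec v = 0 → v = 0 := by
  have h1 : A.det ≠ 0 := by
    intro h0
    obtain ⟨v, hv, h2⟩ := Matrix.exists_mulVec_eq_zero_iff.2 h0
    exact hv (h v h2)
  intro v hv
  by_contra hne
  apply h1
  rw [← Matrix.det_transpose]
  exact Matrix.exists_mulVec_eq_zero_iff.1 ⟨v, hne, hv⟩

/-- the matrix -/
noncomputable def mt (S : Finset OK) : Matrix S S (ZMod 2) := Matrix.of fun p q =>
  if p = q then sym s7 (p : OK) + ∑ r ∈ S, sym r p else sym (q : OK) (p : OK)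

theorem sym_self (q : OK) : sym q q = 0 := by
  rw [sym_eq, s_self]

theorem z2a (x : ZMod 2) : x + x = 0 := by
  revert x
  decide

theorem row_mt (S : Finset OK) (v : OK → ZMod 2) (p : S) :
    row S v p = (mt S).mulVec (fun q => v q) p := by
  unfold row Matrix.mulVec dotProduct
  have e1 : ∀ q : S, mt S p q * v q = (if p = q then (sym s7 (p : OK) + ∑ r ∈ S, sym r p) * v q else 0) +
      sym (q : OK) (p : OK) * v q := by
    intro q
    unfold mt
    rw [Matrix.of_apply]
    split_ifs with h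
    · rw [h, sym_self, zero_mul, add_zero]
    · rw [zero_add]
  rw [Finset.sum_congr rfl fun q _ => e1 q, Finset.sum_add_distrib, Finset.sum_ite_eq,
    if_pos (mem_univ p), add_mul, add_assoc, Finset.sum_mul]
  congr 1
  rw [show (∑ ρ ∈ S, sym ρ p * (v p + v ρ)) = ∑ ρ ∈ S, sym ρ p * v p + ∑ ρ ∈ S, sym ρ p * v ρ by
    rw [← Finset.sum_add_distrib]
    exact Finset.sum_congr rfl fun q _ => mul_add _ _ _]
  congr 1
  exact (Finset.sum_coe_sort S fun q => sym q (p : OK) * v q).symm

/-- extension of a function on `S` -/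
noncomputable def xt {S : Finset OK} (v : S → ZMod 2) (q : OK) : ZMod 2 := if h : q ∈ S then v ⟨q, h⟩ else 0

theorem xt_coe {S : Finset OK} (v : S → ZMod 2) : (fun q : S => xt v q) = v := by
  funext q
  unfold xt
  rw [dif_pos q.2]

theorem regular_mt (S : Finset OK) : Regular S ↔ ∀ v, (mt S).mulVec v = 0 → v = 0 := by
  constructor
  · intro h v hv
    have h1 := h (xt v) fun π hπ => by
      have := row_mt S (xt v) ⟨π, hπ⟩
      rw [xt_coe, hv] at this
      exact this
    funext q
    rw [← congrFun (xt_coe v) q]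
    exact h1 q q.2
  · intro h v hv
    have h1 := h (fun q => v q) (by
      funext p
      rw [← row_mt]
      exact hv p p.2)
    intro π hπ
    exact congrFun h1 ⟨π, hπ⟩

/-- the bordered matrix -/
noncomputable def bm (S : Finset OK) : Matrix (S ⊕ Unit) (S ⊕ Unit) (ZMod 2) :=
  Matrix.fromBlocks (mt S) (Matrix.of fun p _ => sym (p : OK) (1 - om))
    (Matrix.of fun _ q => sym (q : OK) om) 0

theorem bordered_bm (S : Finset OK) : Bordered S ↔ ∀ v, (bm S).mulVec v = 0 → v = 0 := by
  have key : ∀ (v : OK → ZMod 2) (e : ZMod 2), (bm S).mulVec (Sum.elim (fun q => v q) fun _ => e) = 0 ↔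
      (∀ π ∈ S, row S v π + e * sym π (1 - om) = 0) ∧ ∑ ρ ∈ S, sym ρ om * v ρ = 0 := by
    intro v e
    unfold bm
    rw [Matrix.fromBlocks_mulVec]
    constructor
    · intro h
      refine ⟨fun π hπ => ?_, ?_⟩
      · have h1 := congrFun h (Sum.inl ⟨π, hπ⟩)
        simp only [Sum.elim_inl, Function.comp_def, Sum.elim_inr, Pi.zero_apply, Pi.add_apply] at h1
        rw [← row_mt S v ⟨π, hπ⟩] at h1
        rw [← h1]
        congr 1
        unfold Matrix.mulVec dotProduct
        simp [mul_comm]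
      · have h1 := congrFun h (Sum.inr ())
        simp only [Sum.elim_inl, Function.comp_def, Sum.elim_inr, Pi.zero_apply, Pi.add_apply,
          Matrix.zero_mulVec, add_zero] at h1
        rw [← h1]
        unfold Matrix.mulVec dotProduct
        exact (Finset.sum_coe_sort S fun q => sym q om * v q).symm
    · rintro ⟨h1, h2⟩
      funext i
      rcases i with ⟨π, hπ⟩ | u
      · simp only [Sum.elim_inl, Function.comp_def, Sum.elim_inr, Pi.zero_apply, Pi.add_apply]
        rw [← row_mt S v ⟨π, hπ⟩, ← h1 π hπ]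
        congr 1
        unfold Matrix.mulVec dotProduct
        simp [mul_comm]
      · simp only [Sum.elim_inl, Function.comp_def, Sum.elim_inr, Pi.zero_apply, Pi.add_apply,
          Matrix.zero_mulVec, add_zero]
        rw [← h2]
        unfold Matrix.mulVec dotProduct
        exact (Finset.sum_coe_sort S fun q => sym q om * v q)
  constructor
  · intro h v hv
    have e0 : v = Sum.elim (fun q : S => xt (fun q => v (Sum.inl q)) (q : OK))
        fun _ => v (Sum.inr ()) := by
      funext i
      rcases i with q | u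
      · exact (congrFun (xt_coe fun q => v (Sum.inl q)) q).symm
      · rfl
    rw [e0] at hv
    obtain ⟨h1, h2⟩ := (key _ _).1 hv
    obtain ⟨h3, h4⟩ := h _ _ h1 h2
    funext i
    rcases i with q | u
    · have := h3 q q.2
      rw [congrFun (xt_coe fun q => v (Sum.inl q)) q] at this
      exact this
    · exact h4
  · intro h v e h1 h2
    have h3 := h _ ((key v e).2 ⟨h1, h2⟩)
    exact ⟨fun π hπ => congrFun h3 (Sum.inl ⟨π, hπ⟩), congrFun h3 (Sum.inr ())⟩

/-! ### The conjugate set -/

theorem sj_inj {S : Finset OK} (hS : ∀ q ∈ S, PP q) : Set.InjOn sj S := by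
  intro a ha b hb h
  rw [← sj_sj (hS a ha), h, sj_sj (hS b hb)]

/-- the bijection with the conjugate set -/
noncomputable def eqv {S : Finset OK} (hS : ∀ q ∈ S, PP q) : S ≃ (S.image sj : Finset OK) :=
  Equiv.ofBijective (fun q => ⟨sj q, mem_image_of_mem _ q.2⟩) (by
    constructor
    · intro a b h
      exact Subtype.ext (sj_inj hS a.2 b.2 (congrArg Subtype.val h))
    · rintro ⟨x, hx⟩
      obtain ⟨a, ha, rfl⟩ := mem_image.1 hx
      exact ⟨⟨a, ha⟩, rfl⟩)

theorem eqv_coe {S : Finset OK} (hS : ∀ q ∈ S, PP q) (q : S) : ((eqv hS q : _) : OK) = sj q := rfl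

/-- the transposition -/
theorem mt_sj {S : Finset OK} (hS : ∀ q ∈ S, PP q) (h0 : ∑ q ∈ S, tO q = 0) (p q : S) :
    mt (S.image sj) (eqv hS p) (eqv hS q) = mt S q p := by
  unfold mt
  rw [Matrix.of_apply, Matrix.of_apply]
  by_cases h : p = q
  · subst h
    rw [if_pos rfl, if_pos rfl, eqv_coe, sym_s7_sj (hS p p.2), Finset.sum_image (sj_inj hS)]
    have e1 : ∀ r ∈ S, sym (sj r) (sj p) = sym r p + if r = p then 0 else tO r * tO p := by
      intro r hr
      split_ifs with h1
      · rw [h1, sym_self, sym_self, add_zero]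
      · rw [sym_sj (hS p p.2) (hS r hr) h1]
        have h2 := s_rec (hS r hr) (hS p p.2) h1
        rw [← sym_eq, ← sym_eq] at h2
        have h3 : ∀ x y z : ZMod 2, x + y = z → y = x + z := by decide
        exact h3 _ _ _ h2
    rw [Finset.sum_congr rfl e1, Finset.sum_add_distrib]
    have e2 : ∑ r ∈ S, (if r = (p : OK) then 0 else tO r * tO p) = tO (p : OK) := by
      have e3 : ∀ r ∈ S, (if r = (p : OK) then 0 else tO r * tO p) =
          tO r * tO p + if r = (p : OK) then tO (p : OK) else 0 := by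
        intro r _
        split_ifs with h1
        · rw [h1]
          generalize tO (p : OK) = x
          revert x
          decide
        · rw [add_zero]
      rw [Finset.sum_congr rfl e3, Finset.sum_add_distrib, ← Finset.sum_mul, h0, zero_mul, zero_add,
        Finset.sum_ite_eq', if_pos p.2]
    rw [e2]
    generalize sym s7 (p : OK) = x
    generalize ∑ r ∈ S, sym r (p : OK) = y
    generalize tO (p : OK) = z
    revert x y z
    decide
  · rw [if_neg (fun h1 => h ((eqv hS).injective h1)), if_neg (fun h1 => h h1.symm), eqv_coe, eqv_coe]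
    exact sym_sj (hS p p.2) (hS q q.2) fun h1 => h (Subtype.ext h1).symm

theorem regular_sj {S : Finset OK} (hS : ∀ q ∈ S, PP q) (h0 : ∑ q ∈ S, tO q = 0) (h : Regular S) :
    Regular (S.image sj) := by
  rw [regular_mt] at h ⊢
  intro v hv
  have h1 := ker_tr (mt S) h (fun q => v (eqv hS q)) (by
    funext p
    have h2 := congrFun hv (eqv hS p)
    unfold Matrix.mulVec dotProduct at h2 ⊢
    rw [← (eqv hS).sum_comp] at h2
    rw [Pi.zero_apply] at h2 ⊢
    rw [← h2]
    refine Finset.sum_congr rfl fun q _ => ?_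
    show mt S q p * v (eqv hS q) = mt (S.image sj) (eqv hS p) (eqv hS q) * v (eqv hS q)
    rw [mt_sj hS h0])
  funext q
  obtain ⟨p, rfl⟩ := (eqv hS).surjective q
  exact congrFun h1 p

theorem bm_sj {S : Finset OK} (hS : ∀ q ∈ S, PP q) (h0 : ∑ q ∈ S, tO q = 0) (p q : S ⊕ Unit) :
    bm (S.image sj) (Equiv.sumCongr (eqv hS) (Equiv.refl Unit) p)
      (Equiv.sumCongr (eqv hS) (Equiv.refl Unit) q) = bm S q p := by
  rcases p with p | p <;> rcases q with q | q
  · exact mt_sj hS h0 p q
  · show sym (sj p) (1 - om) = sym (p : OK) om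
    exact sym_sj_om'
  · show sym (sj q) om = sym (q : OK) (1 - om)
    exact sym_sj_om
  · rfl

theorem bordered_sj {S : Finset OK} (hS : ∀ q ∈ S, PP q) (h0 : ∑ q ∈ S, tO q = 0) (h : Bordered S) :
    Bordered (S.image sj) := by
  rw [bordered_bm] at h ⊢
  intro v hv
  set E := Equiv.sumCongr (eqv hS) (Equiv.refl Unit) with hE
  have h1 := ker_tr (bm S) h (fun q => v (E q)) (by
    funext p
    have h2 := congrFun hv (E p)
    unfold Matrix.mulVec dotProduct at h2 ⊢
    rw [← E.sum_comp] at h2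
    rw [Pi.zero_apply] at h2 ⊢
    rw [← h2]
    refine Finset.sum_congr rfl fun q _ => ?_
    show bm S q p * v (E q) = bm (S.image sj) (E p) (E q) * v (E q)
    rw [hE, bm_sj hS h0])
  funext q
  obtain ⟨p, rfl⟩ := E.surjective q
  exact congrFun h1 p

/-! ### The product -/

theorem prod_sj (S : Finset OK) : ∏ q ∈ S, sj q = cj (∏ q ∈ S, q) ∨
    ∏ q ∈ S, sj q = -cj (∏ q ∈ S, q) := by
  induction S using Finset.induction_on with
  | empty => left; simp
  | insert a S ha ih =>
    rw [Finset.prod_insert ha, Finset.prod_insert ha, map_mul]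
    have h1 : sj a = cj a ∨ sj a = -cj a := by
      unfold sj
      split_ifs
      · exact Or.inl rfl
      · exact Or.inr rfl
    rcases h1 with h1 | h1 <;> rcases ih with h2 | h2 <;> rw [h1, h2]
    · left; rfl
    · right; ring
    · right; ring
    · left; ring

theorem adm_cj {D : OK} (h : Adm D) : Adm (cj D) := by
  obtain ⟨h1, h2, h3⟩ := h
  refine ⟨?_, ?_, ?_⟩
  · intro x hx
    have h4 : cj x * cj x ∣ D := by
      rw [← map_mul, ← cj_dvd, cj_cj]
      exact hx
    have h5 := h1 _ h4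
    have h6 := h5.map cj
    rw [cj_cj] at h6
    exact h6
  · have h4 := (cj_dvd (x := 8) (y := D - 1)).2 h2
    rw [map_sub, map_one] at h4
    have e : cj (8 : OK) = 8 := map_ofNat cj 8
    rw [e] at h4
    exact h4
  · intro h4
    apply h3
    rw [← neg_dvd, ← cj_s7, ← cj_dvd, cj_cj]
    exact h4

theorem c3_eight {D : OK} (h : (8 : OK) ∣ D - 1) : c3 D % 4 = 1 ∧ c6 D % 4 = 1 := by
  obtain ⟨z, hz⟩ := h
  have h1 := congrArg QuadraticAlgebra.re hz
  have h2 := congrArg QuadraticAlgebra.im hz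
  have e1 : ((8 : OK) * z).re = 8 * z.re := by
    rw [QuadraticAlgebra.re_mul]
    have a1 : (8 : OK).re = 8 := rfl
    have a2 : (8 : OK).im = 0 := rfl
    rw [a1, a2]
    ring
  have e2 : ((8 : OK) * z).im = 8 * z.im := by
    rw [QuadraticAlgebra.im_mul]
    have a1 : (8 : OK).re = 8 := rfl
    have a2 : (8 : OK).im = 0 := rfl
    rw [a1, a2]
    ring
  have e3 : (D - 1).re = D.re - 1 := rfl
  have e4 : (D - 1).im = D.im := by
    show D.im - 0 = D.im
    ring
  rw [e1, e3] at h1
  rw [e2, e4] at h2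
  unfold c3 c6
  constructor <;> omega

theorem sum_tO {S : Finset OK} (hS : ∀ q ∈ S, PP q) (h : (8 : OK) ∣ ∏ q ∈ S, q - 1) :
    ∑ q ∈ S, tO q = 0 := by
  obtain ⟨h1, h2⟩ := Pool.Agent.H519.Q7.PS_prod hS
  have h3 := tO_sum h1
  rw [h2] at h3
  rw [← h3, tO_iff]
  have h4 := (c3_eight h).1
  rw [h4]
  decide

theorem prod_sj' {S : Finset OK} (hS : ∀ q ∈ S, PP q) (h : (8 : OK) ∣ ∏ q ∈ S, q - 1) :
    ∏ q ∈ S.image sj, q = cj (∏ q ∈ S, q) := by
  rw [Finset.prod_image (sj_inj hS)]
  rcases prod_sj S with h1 | h1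
  · exact h1
  · exfalso
    have hS' : ∀ q ∈ S.image sj, PP q := by
      intro q hq
      obtain ⟨p, hp, rfl⟩ := mem_image.1 hq
      exact sj_PP (hS p hp)
    have h2 := (Pool.Agent.H519.Q7.PS_prod hS').1.prm.six
    rw [Finset.prod_image (sj_inj hS), h1] at h2
    have h3 := c3_eight h
    unfold c6 at h2 h3
    unfold c3 at h3
    have e1 : (-cj (∏ q ∈ S, q)).re = -((∏ q ∈ S, q).re + (∏ q ∈ S, q).im) := rfl
    have e2 : (-cj (∏ q ∈ S, q)).im = -(-(∏ q ∈ S, q).im) := rfl
    rw [e1, e2] at h2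
    omega

/-- the conjugate of a good element is good -/
theorem good_cj {D : OK} (hA : Adm D) (h : Good D) : Good (cj D) := by
  obtain ⟨S, hS, rfl, hR⟩ := h
  have hS' : ∀ q ∈ S, PP q := fun q hq => (primary_iff q).1 (hS q hq)
  refine ⟨S.image sj, fun q hq => ?_, prod_sj' hS' hA.2.1, regular_sj hS' (sum_tO hS' hA.2.1) hR⟩
  obtain ⟨p, hp, rfl⟩ := mem_image.1 hq
  exact (primary_iff _).2 (sj_PP (hS' p hp))

/-- the conjugate of a very good element is very good -/
theorem very_cj {D : OK} (hA : Adm D) (h : VeryGood D) : VeryGood (cj D) := by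
  obtain ⟨S, hS, rfl, hR, hB⟩ := h
  have hS' : ∀ q ∈ S, PP q := fun q hq => (primary_iff q).1 (hS q hq)
  refine ⟨S.image sj, fun q hq => ?_, prod_sj' hS' hA.2.1, regular_sj hS' (sum_tO hS' hA.2.1) hR,
    bordered_sj hS' (sum_tO hS' hA.2.1) hB⟩
  obtain ⟨p, hp, rfl⟩ := mem_image.1 hq
  exact (primary_iff _).2 (sj_PP (hS' p hp))

end Pool.Agent.H848.HM
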