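import Pool.Agent.H519.KW.Dn

/-!
# Project HM: the complex conjugation and the good twists

The matrix `M_S` of the conjugate of `D` is the transpose of the one of `D`.
-/

set_option autoImplicit false

open scoped Classical

namespace Pool.Agent.H848.HM

open Finset
open Pool.Agent.H519.Q7 (PP PS PD c3 c6 c7 tO tO_sum s_rec s_self)
open Pool.Agent.H519.KW.Fd (OK om s7 Adm Primary sym row Regular Bordered Good VeryGood)
open Pool.Agent.H519.KW.Dn (primary_iff sym_eq s_neg_one)

/-- the conjugation -/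
def cjF (z : OK) : OK := ⟨z.re + z.im, -z.im⟩

theorem cjF_cjF (z : OK) : cjF (cjF z) = z := by
  unfold cjF
  ext
  · simp
  · simp

theorem cjF_mul (x y : OK) : cjF (x * y) = cjF x * cjF y := by
  unfold cjF
  ext
  · simp only [QuadraticAlgebra.re_mul, QuadraticAlgebra.im_mul]
    ring
  · simp only [QuadraticAlgebra.re_mul, QuadraticAlgebra.im_mul]
    ring

theorem cjF_add (x y : OK) : cjF (x + y) = cjF x + cjF y := by
  unfold cjF
  ext
  · simp only [QuadraticAlgebra.re_add, QuadraticAlgebra.im_add]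
    ring
  · simp only [QuadraticAlgebra.im_add]
    ring

/-- the conjugation as an automorphism of the ring -/
def cj : OK ≃+* OK where
  toFun := cjF
  invFun := cjF
  left_inv := cjF_cjF
  right_inv := cjF_cjF
  map_mul' := cjF_mul
  map_add' := cjF_add

theorem cj_re (z : OK) : (cj z).re = z.re + z.im := rfl
theorem cj_im (z : OK) : (cj z).im = -z.im := rfl
theorem cj_cj (z : OK) : cj (cj z) = z := cjF_cjF z

theorem cj_dvd {x y : OK} : cj x ∣ cj y ↔ x ∣ y := map_dvd_iff cj

theorem one_re : (1 : OK).re = 1 := rfl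
theorem one_im : (1 : OK).im = 0 := rfl

theorem cj_om : cj om = 1 - om := by
  ext
  · rw [cj_re, QuadraticAlgebra.re_sub, one_re]
    simp [om]
  · rw [cj_im, QuadraticAlgebra.im_sub, one_im]
    simp [om]

theorem cj_om' : cj (1 - om) = om := by
  rw [← cj_om, cj_cj]

theorem cj_s7 : cj s7 = -s7 := by
  ext <;> simp [cj_re, cj_im, s7]

theorem mul_cj (z : OK) : z * cj z = ((Pool.Agent.H519.KW.Fd.norm z : ℤ) : OK) := by
  ext
  · rw [QuadraticAlgebra.re_mul, cj_re, cj_im]
    simp only [Pool.Agent.H519.KW.Fd.norm, QuadraticAlgebra.re_intCast]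
    push_cast
    ring
  · rw [QuadraticAlgebra.im_mul, cj_re, cj_im]
    simp only [QuadraticAlgebra.im_intCast]
    ring

/-! ### The symbols -/

theorem sym_cj (q x : OK) : sym (cj q) (cj x) = sym q x := by
  unfold sym
  congr 1
  rw [eq_iff_iff]
  constructor
  · rintro ⟨y, hy⟩
    refine ⟨cj y, ?_⟩
    rw [← cj_dvd, map_sub, map_pow, cj_cj]
    exact hy
  · rintro ⟨y, hy⟩
    refine ⟨cj y, ?_⟩
    rw [← map_pow, ← map_sub, cj_dvd]
    exact hy

theorem sym_neg_left (q x : OK) : sym (-q) x = sym q x := by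
  unfold sym
  simp only [neg_dvd]

/-- the primary generator of the conjugate prime -/
noncomputable def sj (q : OK) : OK := if tO q = 0 then cj q else -cj q

theorem z2 (x : ZMod 2) : x = 0 ∨ x = 1 := by
  revert x
  decide

theorem tO_iff (q : OK) : tO q = 0 ↔ c3 q % 4 ≠ 3 := by
  unfold tO
  split_ifs with h
  · simp [h]
  · simp [h]

theorem c6_cj (z : OK) : c6 (cj z) = z.re - 5 * z.im := by
  unfold c6
  rw [cj_re, cj_im]
  ring

theorem c3_cj (z : OK) : c3 (cj z) = z.re - 2 * z.im := by
  unfold c3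
  rw [cj_re, cj_im]
  ring

theorem sj_prime {q : OK} (h : Prime q) : Prime (sj q) := by
  unfold sj
  split_ifs
  · exact (MulEquiv.prime_iff cj.toMulEquiv).2 h
  · exact ((MulEquiv.prime_iff cj.toMulEquiv).2 h).neg

theorem tO_sj {q : OK} (h : PP q) : tO (sj q) = tO q := by
  have h6 := h.prm.six
  have h3 := h.prm.three
  unfold c6 at h6
  unfold c3 at h3
  rcases z2 (tO q) with h0 | h0
  · have e : sj q = cj q := if_pos h0
    rw [e, h0, tO_iff, c3_cj]
    omega
  · have e : sj q = -cj q := if_neg (by rw [h0]; exact one_ne_zero)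
    rw [e, h0]
    unfold tO c3
    have e1 : (-cj q).re = -(q.re + q.im) := rfl
    have e2 : (-cj q).im = -(-q.im) := rfl
    rw [e1, e2, if_pos]
    omega

theorem sj_PP {q : OK} (h : PP q) : PP (sj q) := by
  have h6 := h.prm.six
  have h3 := h.prm.three
  have h7 := h.prm.seven
  unfold c6 at h6
  unfold c3 at h3
  unfold c7 at h7
  have ht := tO_iff q
  unfold c3 at ht
  rcases z2 (tO q) with h0 | h0
  · have e : sj q = cj q := if_pos h0
    have h1 := ht.1 h0
    refine ⟨sj_prime h.pr, ⟨?_, ?_, ?_⟩⟩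
    · rw [e, c6_cj]; omega
    · rw [e, c3_cj]; omega
    · rw [e]
      unfold c7
      rw [cj_re, cj_im]
      omega
  · have e : sj q = -cj q := if_neg (by rw [h0]; exact one_ne_zero)
    have h1 : (q.re + 3 * q.im) % 4 = 3 := by
      by_contra h1
      rw [ht.2 h1] at h0
      exact zero_ne_one h0
    have e1 : (-cj q).re = -(q.re + q.im) := rfl
    have e2 : (-cj q).im = -(-q.im) := rfl
    refine ⟨sj_prime h.pr, ⟨?_, ?_, ?_⟩⟩
    · rw [e]; unfold c6; rw [e1, e2]; omega
    · rw [e]; unfold c3; rw [e1, e2]; omega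
    · rw [e]; unfold c7; rw [e1, e2]; omega

theorem sj_sj {q : OK} (h : PP q) : sj (sj q) = q := by
  rcases z2 (tO q) with h0 | h0
  · have e : sj q = cj q := if_pos h0
    have h1 := tO_sj h
    rw [e] at h1 ⊢
    rw [h0] at h1
    unfold sj
    rw [if_pos h1, cj_cj]
  · have e : sj q = -cj q := if_neg (by rw [h0]; exact one_ne_zero)
    have h1 := tO_sj h
    rw [e] at h1 ⊢
    rw [h0] at h1
    unfold sj
    rw [if_neg (by rw [h1]; exact one_ne_zero), map_neg, cj_cj, neg_neg]

/-- the symbol of a prime modulo the conjugate primes -/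
theorem sym_sj {q ρ : OK} (h : PP q) (h' : PP ρ) (hne : ρ ≠ q) : sym (sj ρ) (sj q) = sym q ρ := by
  have e0 : sym (sj ρ) (sj q) = sym (cj ρ) (sj q) := by
    unfold sj
    split_ifs <;> simp only [sym_neg_left]
  have hr := s_rec h' h hne
  rw [← sym_eq, ← sym_eq] at hr
  rw [e0]
  have h2 : ∀ x y z : ZMod 2, x + y = z → y = x + z := by decide
  have h3 := h2 _ _ _ hr
  rw [h3]
  rcases z2 (tO q) with h0 | h0
  · have e : sj q = cj q := if_pos h0
    rw [e, sym_cj, h0, mul_zero, add_zero]
  · have e : sj q = -cj q := if_neg (by rw [h0]; exact one_ne_zero)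
    rw [e, h0, mul_one, ← map_neg, sym_cj, sym_eq, sym_eq]
    have h4 : ¬ ρ ∣ q := fun h5 => by
      have h6 := (h'.pr.associated_of_dvd h.pr h5)
      exact Pool.Agent.H519.Q7.Rec0.Pp_ndvd (Pool.Agent.H519.Q7.prim_iff_Pp.1 h')
        (Pool.Agent.H519.Q7.prim_iff_Pp.1 h) hne h5
    have h5 := Pool.Agent.H519.KW.Dn.s_neg h' h4
    rw [h5]
    generalize Pool.Agent.H519.Q7.s ρ (-q) = x
    generalize tO ρ = y
    revert x y
    decide

/-- the symbol modulo `√-7` -/
theorem sym_s7_sj {q : OK} (h : PP q) : sym s7 (sj q) = sym s7 q + tO q := by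
  rw [Pool.Agent.H519.KW.Dn.sym_s7 (sj_PP h), Pool.Agent.H519.KW.Dn.sym_s7 h]
  have h7 := h.prm.seven
  unfold Pool.Agent.H519.Q7.eO c7
  unfold c7 at h7
  rcases z2 (tO q) with h0 | h0
  · have e : sj q = cj q := if_pos h0
    rw [e, h0, cj_re, cj_im, add_zero]
    congr 1
    rw [eq_iff_iff]
    omega
  · have e : sj q = -cj q := if_neg (by rw [h0]; exact one_ne_zero)
    have e1 : (-cj q).re = -(q.re + q.im) := rfl
    have e2 : (-cj q).im = -(-q.im) := rfl
    rw [e, h0, e1, e2]
    split_ifs with h1 h2 h2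
    · omega
    · decide
    · decide
    · omega

/-- the symbols of the primes above two -/
theorem sym_sj_om {q : OK} : sym (sj q) om = sym q (1 - om) := by
  have e0 : sym (sj q) om = sym (cj q) om := by
    unfold sj
    split_ifs <;> simp only [sym_neg_left]
  rw [e0, ← sym_cj q (1 - om), cj_om']

theorem sym_sj_om' {q : OK} : sym (sj q) (1 - om) = sym q om := by
  have e0 : sym (sj q) (1 - om) = sym (cj q) (1 - om) := by
    unfold sj
    split_ifs <;> simp only [sym_neg_left]
  rw [e0, ← sym_cj q om, cj_om]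

end Pool.Agent.H848.HM
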