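import Mathlib
import Pool.Agent.H519.KW.Fd

/-!
# Project HM: two-dimensional representations of the absolute Galois groups of real and imaginary quadratic fields
# attached to the CM curves over `ℚ(√-7)`: the definitions
-/

set_option autoImplicit false

namespace Pool.Agent.H848.HM

open WeierstrassCurve Filter Topology IsDedekindDomain
open scoped Classical
open Pool.Agent.H519.KW.Fd (OK s7 Adm)

/-! ### The curves -/

/-- An algebraic closure of `ℚ`. -/
abbrev QBar : Type := AlgebraicClosure ℚ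

/-- The field `K = ℚ(w)`. It is `ℚ(√-7)` if `w² = w - 2`. -/
noncomputable abbrev K (w : QBar) : IntermediateField ℚ QBar := IntermediateField.adjoin ℚ {w}

/-- `w` as an element of `K`. -/
noncomputable def gen (w : QBar) : K w := ⟨w, IntermediateField.mem_adjoin_simple_self ℚ w⟩

/-- The element `a + b ω` of `ℤ[ω]` as an element of the field `L`, `w` being the image of `ω`. -/
def emb {L : Type} [Ring L] (w : L) (z : OK) : L := z.re + z.im * w

/-- The curve `y² = x³ + 3 (1 - w) d x² + w⁴ d² x`. -/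
def curve {F : Type} [Field F] (w d : F) : WeierstrassCurve F :=
  ⟨0, 3 * (1 - w) * d, 0, w ^ 4 * d ^ 2, 0⟩

/-- The curve `E_D : y² = x³ + 3 (1 - ω) D x² + ω⁴ D² x` over `K`. -/
noncomputable def ED (w : QBar) (D : OK) : WeierstrassCurve (K w) := curve (gen w) (emb (gen w) D)

/-- The absolute Galois group of `K`. -/
abbrev Gal (w : QBar) : Type := QBar ≃ₐ[K w] QBar

/-- The subgroups of the Galois group. -/
abbrev Sub (w : QBar) : Type := Subgroup (Gal w)

/-- The characters of the Galois group with values in the units of `ℤ_2`. -/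
abbrev Chr (w : QBar) : Type := Gal w →* ℤ_[2]ˣ

/-- The values of the character `χ`, in `ℤ_2`. -/
noncomputable def zv {w : QBar} (χ : Chr w) (σ : Gal w) : ℤ_[2] := ((χ σ : ℤ_[2]ˣ) : ℤ_[2])

/-- The values of the character `χ`, in `ℚ_2`. -/
noncomputable def qv {w : QBar} (χ : Chr w) (σ : Gal w) : ℚ_[2] := ((zv χ σ : ℤ_[2]) : ℚ_[2])

/-- The group `E_D(ℚ̄)`. -/
abbrev Pts (w : QBar) (D : OK) : Type := ((ED w D).toAffine.baseChange QBar).Point

/-- The action of the Galois group on `E_D(ℚ̄)`. -/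
noncomputable def act {w : QBar} {D : OK} (σ : Gal w) : Pts w D →+ Pts w D :=
  Affine.Point.map (W' := (ED w D).toAffine) (S := K w) (F := QBar) (K := QBar) σ.toAlgHom

/-- The sequences `x` and `y` are elements of the `2`-adic Tate module of the abelian group `A`, and
they are a basis of it. -/
structure IsBasis {A : Type} [AddCommGroup A] (x y : ℕ → A) : Prop where
  zero : x 0 = 0 ∧ y 0 = 0
  double : ∀ n, x (n + 1) + x (n + 1) = x n ∧ y (n + 1) + y (n + 1) = y n
  span : ∀ (n : ℕ) (P : A), (2 ^ n : ℤ) • P = 0 → ∃ a b : ℤ, P = a • x n + b • y n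
  indep : ∀ (n : ℕ) (a b : ℤ), a • x n + b • y n = 0 → (2 ^ n : ℤ) ∣ a ∧ (2 ^ n : ℤ) ∣ b

/-- The endomorphism `f` of the abelian group `A` acts on the element `x` of its `2`-adic Tate module
as the multiplication by the `2`-adic integer `z`. -/
def ActsBy {A : Type} [AddCommGroup A] (f : A →+ A) (x : ℕ → A) (z : ℤ_[2]) : Prop :=
  ∀ (n : ℕ) (k : ℤ), (2 : ℤ_[2]) ^ n ∣ z - k → f (x n) = k • x n

/-! ### The Galois action on the Tate module -/

/-- The decomposition group of the place of `K` given by the embedding `ι` of `ℚ̄`. -/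
def Dec {w : QBar} {p : ℕ} [Fact p.Prime] (ι : QBar →ₐ[ℚ] PadicAlgCl p) : Set (Gal w) :=
  {σ | ∃ τ : PadicAlgCl p ≃ₐ[ℚ_[p]] PadicAlgCl p, ∀ x, τ (ι x) = ι (σ x)}

/-- Its inertia group: the automorphisms which are trivial on the residue field. -/
def Inr {w : QBar} {p : ℕ} [Fact p.Prime] (ι : QBar →ₐ[ℚ] PadicAlgCl p) : Set (Gal w) :=
  {σ | ∃ τ : PadicAlgCl p ≃ₐ[ℚ_[p]] PadicAlgCl p, (∀ x, τ (ι x) = ι (σ x)) ∧
    ∀ z : PadicAlgCl p, ‖z‖ ≤ 1 → ‖τ z - z‖ < 1}

/-- The character `κ ^ j κ' ^ (1 - j)`. -/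
noncomputable def chi {w : QBar} (κ κ' : Chr w) (j : ℤ) : Chr w := κ ^ j * κ' ^ (1 - j)

/-- `κ` has order at most two on the inertia groups of the places that do not divide `v`. -/
def FiniteOff {w : QBar} (v : QBar) (κ : Chr w) : Prop :=
  ∀ (p : ℕ) [Fact p.Prime] (ι : QBar →ₐ[ℚ] PadicAlgCl p), ‖ι v‖ = 1 → ∀ σ ∈ Inr ι, zv κ σ ^ 2 = 1

/-- The character `κ` is continuous and the Galois group acts by it on the element `x` of the Tate
module. -/
def Eigen {w : QBar} {D : OK} (κ : Chr w) (x : ℕ → Pts w D) : Prop :=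
  Continuous (zv κ) ∧ ∀ σ : Gal w, ActsBy (act σ) x (zv κ σ)

/-- The Galois group acts on the `2`-adic Tate module of `E_D` through the sum of the continuous
characters `κ`, `κ'`; the first one has order at most two on the inertia groups of the places that
do not divide `ω`, and the second one on those of the places that do not divide `1 - ω`. So `κ` has
the Hodge–Tate weights `1` at `ω` and `0` at `1 - ω`, and `κ'` has the weights `0` at `ω` and `1` at
`1 - ω`. -/
def TateModule {w : QBar} (D : OK) (κ κ' : Chr w) : Prop :=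
  (∃ x y : ℕ → Pts w D, IsBasis x y ∧ Eigen κ x ∧ Eigen κ' y) ∧
    FiniteOff w κ ∧ FiniteOff (1 - w) κ'

/-! ### The twists of `X_0(49)` -/

/-- The element `-√-7 D` of `ℤ[ω]`. -/
def tw (D : OK) : OK := -(s7 * D)

/-- The curve `y² + x y = x³ - ((3 d + 1) / 4) x² - 2 d² x - d³`, the quadratic twist by `d` of
`X_0(49) : y² + x y = x³ - x² - 2 x - 1`. -/
def twist {F : Type} [Field F] (d : F) : WeierstrassCurve F :=
  ⟨1, -((3 * d + 1) / 4), 0, -2 * d ^ 2, -d ^ 3⟩

/-- The curve `E_M` over `K`, the quadratic twist by `M` of `X_0(49)`. -/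
noncomputable def EK (w : QBar) (M : OK) : WeierstrassCurve (K w) := twist (emb (gen w) M)

/-- The curves are isomorphic: they differ by a change of variables. -/
def Iso {F : Type} [Field F] (W W' : WeierstrassCurve F) : Prop :=
  ∃ C : VariableChange F, C • W = W'

/-! ### The `L`-functions -/

/-- `(D - 1) / 4` for `D ≡ 1 mod 4` -/
def qt (D : OK) : OK := ⟨(D.re - 1) / 4, D.im / 4⟩

/-- The equation `y² + x y = x³ - ((3 D + 1) / 4) x² - 2 D² x - D³` of `E_D` over `ℤ[ω]`, `D ≡ 1 mod 4`. -/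
def Eint (D : OK) : WeierstrassCurve OK := ⟨1, -(1 + 3 * qt D), 0, -2 * D ^ 2, -D ^ 3⟩

/-- The norm of the prime ideal `v`. -/
noncomputable def nv (v : HeightOneSpectrum OK) : ℕ := Nat.card (OK ⧸ v.asIdeal)

/-- The trace of Frobenius: the norm of `v` plus one minus the number of the points of `E_D` modulo `v`
(the affine points and the point at infinity). -/
noncomputable def av (D : OK) (v : HeightOneSpectrum OK) : ℤ := (nv v : ℤ) -
  Nat.card {P : (OK ⧸ v.asIdeal) × (OK ⧸ v.asIdeal) //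
    ((Eint D).map (Ideal.Quotient.mk v.asIdeal)).toAffine.Equation P.1 P.2}

/-- The sum `α ^ n + β ^ n` of the powers of the roots of `X ^ 2 - a X + b = (X - α) (X - β)`. -/
def powerSum (a b : ℤ) : ℕ → ℤ
  | 0 => 2
  | 1 => a
  | n + 2 => a * powerSum a b (n + 1) - b * powerSum a b n

/-- The Euler factor at `v`. -/
noncomputable def fac (D : OK) (k : ℕ) (s : ℂ) (v : HeightOneSpectrum OK) : ℂ :=
  if s7 * D ∈ v.asIdeal then 1 else
    (1 - ((powerSum (av D v) (nv v) (2 * k - 1) : ℤ) : ℂ) * (nv v : ℂ) ^ (-s) +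
      (nv v : ℂ) ^ (((2 * k - 1 : ℕ) : ℂ) - 2 * s))⁻¹

/-- The entire function `F` is the `L`-function of weight `2 k` of `E_D`. -/
def IsL (D : OK) (k : ℕ) (F : ℂ → ℂ) : Prop := Differentiable ℂ F ∧
  ∀ s : ℂ, (k : ℝ) + 1 / 2 < s.re → HasProd (fac D k s) (F s)

/-! ### The induced representations -/

/-- The absolute Galois group of `ℚ`. -/
abbrev GQ : Type := QBar ≃ₐ[ℚ] QBar

/-- The decomposition group of the place of `ℚ̄` given by the embedding `ι`. -/
def DecQ {p : ℕ} [Fact p.Prime] (ι : QBar →ₐ[ℚ] PadicAlgCl p) : Set GQ :=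
  {σ | ∃ τ : PadicAlgCl p ≃ₐ[ℚ_[p]] PadicAlgCl p, ∀ x, τ (ι x) = ι (σ x)}

/-- Its inertia group: the automorphisms which are trivial on the residue field. -/
def InrQ {p : ℕ} [Fact p.Prime] (ι : QBar →ₐ[ℚ] PadicAlgCl p) : Set GQ :=
  {σ | ∃ τ : PadicAlgCl p ≃ₐ[ℚ_[p]] PadicAlgCl p, (∀ x, τ (ι x) = ι (σ x)) ∧
    ∀ z : PadicAlgCl p, ‖z‖ ≤ 1 → ‖τ z - z‖ < 1}

/-- The function on `Gal(ℚ̄/ℚ)` which is the character `χ` on the subgroup `Gal(ℚ̄/K)` and zero outside it. -/
noncomputable def ext {w : QBar} (χ : Chr w) (σ : GQ) : ℚ_[2] :=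
  if h : ∃ a : Gal w, ∀ x : QBar, a x = σ x then qv χ h.choose else 0

/-- The action of `σ` on the representation `V = Ind χ` of `Gal(ℚ̄/ℚ)` that is induced by the character `χ` of
`Gal(ℚ̄/K)`: the elements of `V` are the pairs of coordinates in the basis `e, τ e`, where `e` is a generator of
`ℚ_2(χ)` and `τ` is an automorphism that is not trivial on `K`. The restriction of `V` to `Gal(ℚ̄/K)` is the sum of
the lines of `e` and `τ e`, on which `σ` acts by `χ(σ)` and `χ(τ⁻¹ σ τ)`. -/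
noncomputable def rho {w : QBar} (χ : Chr w) (τ σ : GQ) (v : ℚ_[2] × ℚ_[2]) : ℚ_[2] × ℚ_[2] :=
  (ext χ σ * v.1 + ext χ (σ * τ) * v.2, ext χ (τ⁻¹ * σ) * v.1 + ext χ (τ⁻¹ * σ * τ) * v.2)

/-- The restriction of the function `c` to `G` is a continuous cocycle with values in `V = Ind χ`. -/
structure IsCocycle {w : QBar} (G : Subgroup GQ) (χ : Chr w) (τ : GQ) (c : GQ → ℚ_[2] × ℚ_[2]) : Prop where
  cont : ContinuousOn c G
  mul : ∀ σ ∈ G, ∀ σ' ∈ G, c (σ * σ') = c σ + rho χ τ σ (c σ')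

/-- The restriction of `c` to the intersection of `S` and `G` is a coboundary with values in `V`. -/
def TrivialOn {w : QBar} (G : Subgroup GQ) (χ : Chr w) (τ : GQ) (S : Set GQ) (c : GQ → ℚ_[2] × ℚ_[2]) : Prop :=
  ∃ y : ℚ_[2] × ℚ_[2], ∀ σ ∈ S, σ ∈ G → c σ = rho χ τ σ y - y

/-- On the set `S` the function `f` is a coboundary for the character `x`. -/
def IsCob (S : Set GQ) (x f : GQ → ℚ_[2]) : Prop := ∃ y : ℚ_[2], ∀ σ ∈ S, f σ = (x σ - 1) * y

/-- The Bloch–Kato conditions for `V = Ind χ` over the field `F` fixed by `G`, for a character `χ` of `Gal(ℚ̄/K)` whose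
Hodge–Tate weight is positive at the place `w` and not positive at the place `1 - w` of `K` above `2`: the class is
trivial on the inertia groups of the places of `F` prime to `2`; the decomposition groups of the places above `2`
act on `V` by two characters, one of them (that of the line of `τ e` if `ι` lies above `1 - w`, that of the line of
`e` if `ι` lies above `w`) with a positive Hodge–Tate weight, and the class is trivial modulo the line of this
character. -/
structure IsSelmer {w : QBar} (G : Subgroup GQ) (χ : Chr w) (τ : GQ) (c : GQ → ℚ_[2] × ℚ_[2]) : Prop where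
  odd : ∀ (p : ℕ) [Fact p.Prime] (ι : QBar →ₐ[ℚ] PadicAlgCl p), p ≠ 2 → TrivialOn G χ τ (InrQ ι) c
  fst : ∀ ι : QBar →ₐ[ℚ] PadicAlgCl 2, ‖ι (1 - w)‖ < 1 →
    IsCob (DecQ ι ∩ G) (ext χ) fun σ => (c σ).1
  snd : ∀ ι : QBar →ₐ[ℚ] PadicAlgCl 2, ‖ι w‖ < 1 →
    IsCob (DecQ ι ∩ G) (fun σ => ext χ (τ⁻¹ * σ * τ)) fun σ => (c σ).2

/-- `H^1_f(F, V) = 0`: all the classes of the Selmer group of `V = Ind χ` over the field `F` fixed by `G` are
trivial. -/
def SelmerZero {w : QBar} (G : Subgroup GQ) (χ : Chr w) (τ : GQ) : Prop :=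
  ∀ c : GQ → ℚ_[2] × ℚ_[2], IsCocycle G χ τ c → IsSelmer G χ τ c → TrivialOn G χ τ Set.univ c

/-- `H^0(F, V) = 0`. -/
def InvariantsZero {w : QBar} (G : Subgroup GQ) (χ : Chr w) (τ : GQ) : Prop :=
  ∀ v : ℚ_[2] × ℚ_[2], (∀ σ ∈ G, rho χ τ σ v = v) → v = 0

/-- The Galois group of `ℚ̄` over the field `F = ℚ(s_1, …, s_n)`. -/
noncomputable def GalF {n : ℕ} (s : Fin n → QBar) : Subgroup GQ :=
  (IntermediateField.adjoin ℚ (Set.range s)).fixingSubgroup

/-- No product of some of the integers `a_i` is a square: `ℚ(√a_1, …, √a_n)` has degree `2 ^ n` over `ℚ`. -/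
def Ind {n : ℕ} (a : Fin n → ℤ) : Prop :=
  ∀ T : Finset (Fin n), T.Nonempty → ¬ IsSquare (∏ i ∈ T, a i)

end Pool.Agent.H848.HM
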