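import Pool.Agent.H848.HM.Cn2
import Pool.Agent.H848.HM.Def

/-!
# Project HM: the density of the good elements
-/

set_option autoImplicit false

open scoped Classical

namespace Pool.Agent.H848.HM

open Filter Topology
open Pool.Agent.H519.KW.Fd (OK s7 Adm Good VeryGood norm count Density Pair InClass)

/-! ### Rational integers in the class -/

theorem int_re (a : ℤ) : (a : OK).re = a := QuadraticAlgebra.re_intCast a
theorem int_im (a : ℤ) : (a : OK).im = 0 := QuadraticAlgebra.im_intCast a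

theorem int_dvd {a : ℤ} {z : OK} : (a : OK) ∣ z ↔ a ∣ z.re ∧ a ∣ z.im := by
  constructor
  · rintro ⟨t, rfl⟩
    rw [QuadraticAlgebra.re_mul, QuadraticAlgebra.im_mul, int_re, int_im]
    exact ⟨⟨t.re, by ring⟩, ⟨t.im, by ring⟩⟩
  · rintro ⟨⟨x, hx⟩, ⟨y, hy⟩⟩
    refine ⟨⟨x, y⟩, ?_⟩
    ext
    · rw [QuadraticAlgebra.re_mul, int_re, int_im, hx]
      ring
    · rw [QuadraticAlgebra.im_mul, int_re, int_im, hy]
      ring

theorem nm_mul (x y : OK) : norm (x * y) = norm x * norm y := by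
  unfold Pool.Agent.H519.KW.Fd.norm
  rw [QuadraticAlgebra.re_mul, QuadraticAlgebra.im_mul]
  ring

theorem nm_int (a : ℤ) : norm (a : OK) = a ^ 2 := by
  unfold Pool.Agent.H519.KW.Fd.norm
  rw [int_re, int_im]
  ring

theorem unit_of_nm {x : OK} (h : norm x = 1) : IsUnit x := by
  refine IsUnit.of_mul_eq_one (cj x) ?_
  rw [mul_cj, h, Int.cast_one]

theorem nm_one_cases {x : OK} (h : norm x = 1) : x = 1 ∨ x = -1 := by
  unfold Pool.Agent.H519.KW.Fd.norm at h
  have h1 : (2 * x.re + x.im) ^ 2 + 7 * x.im ^ 2 = 4 := by linarith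
  have h2 : x.im = 0 := by
    by_contra h3
    have h4 : 1 ≤ x.im ^ 2 := by
      have : 0 < x.im ^ 2 := by positivity
      omega
    nlinarith [sq_nonneg (2 * x.re + x.im)]
  rw [h2] at h
  have h3 : (x.re - 1) * (x.re + 1) = 0 := by linarith
  rcases mul_eq_zero.1 h3 with h4 | h4
  · left
    ext
    · show x.re = 1
      linarith
    · exact h2
  · right
    ext
    · show x.re = -1
      linarith
    · show x.im = -0
      rw [h2]
      ring

theorem nm_nonneg (x : OK) : 0 ≤ norm x := by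
  unfold Pool.Agent.H519.KW.Fd.norm
  nlinarith [sq_nonneg (2 * x.re + x.im), sq_nonneg x.im]

theorem nm_pos {x : OK} (h : x ≠ 0) : 0 < norm x := by
  rcases (nm_nonneg x).lt_or_eq with h1 | h1
  · exact h1
  · exfalso
    apply h
    unfold Pool.Agent.H519.KW.Fd.norm at h1
    have h2 : (2 * x.re + x.im) ^ 2 + 7 * x.im ^ 2 = 0 := by linarith
    have h3 : x.im = 0 := by
      have : x.im ^ 2 = 0 := by nlinarith [sq_nonneg (2 * x.re + x.im), sq_nonneg x.im]
      exact pow_eq_zero_iff (two_ne_zero) |>.1 this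
    rw [h3] at h2
    have h4 : x.re = 0 := by
      have : x.re ^ 2 = 0 := by linarith
      exact pow_eq_zero_iff (two_ne_zero) |>.1 this
    ext
    · exact h4
    · exact h3

theorem sqf_int {e : ℤ} (h : Squarefree e) (h2 : ¬ 2 ∣ e) (h7 : ¬ 7 ∣ e) : Squarefree (e : OK) := by
  intro x hx
  apply unit_of_nm
  have he : e ≠ 0 := h.ne_zero
  have hx0 : x ≠ 0 := by
    rintro rfl
    rw [mul_zero, zero_dvd_iff] at hx
    exact he (by exact_mod_cast congrArg QuadraticAlgebra.re hx)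
  by_contra hne
  have hp0 := nm_pos hx0
  have hna : (norm x).natAbs ≠ 1 := by omega
  obtain ⟨p, hp, hpn⟩ := Nat.exists_prime_and_dvd hna
  have hpI : Prime (p : ℤ) := Nat.prime_iff_prime_int.1 hp
  have hpx : (p : ℤ) ∣ norm x := Int.natCast_dvd.2 hpn
  obtain ⟨y, hy⟩ := hx
  have hnd : norm x * norm x ∣ e * e := by
    have h3 := congrArg norm hy
    rw [nm_mul, nm_mul, nm_int] at h3
    exact ⟨norm y, by rw [← h3]; ring⟩
  have hne' : norm x ∣ e := by
    rw [← pow_two, ← pow_two] at hnd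
    exact (Int.pow_dvd_pow_iff two_ne_zero).1 hnd
  have hpe : (p : ℤ) ∣ e := hpx.trans hne'
  obtain ⟨f, hf⟩ := hpe
  have hpf : ¬ (p : ℤ) ∣ f := by
    rintro ⟨g, hg⟩
    have h3 : (p : ℤ) * p ∣ e := ⟨g, by rw [hf, hg]; ring⟩
    exact hpI.not_isUnit (h _ h3)
  have hp2 : (p : ℤ) ≠ 2 := by
    intro h3
    exact h2 (h3 ▸ ⟨f, hf⟩)
  have hp7 : (p : ℤ) ≠ 7 := by
    intro h3
    exact h7 (h3 ▸ ⟨f, hf⟩)
  -- `p` divides the square of `cj x`
  have h4 : (((p : ℤ) : ℤ) : OK) * ((p : ℤ) : OK) ∣ (e : OK) * (cj x * cj x) := by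
    obtain ⟨m, hm⟩ := hpx
    refine ⟨((m : ℤ) : OK) * ((m : ℤ) : OK) * y, ?_⟩
    have e1 : (e : OK) * (cj x * cj x) = (x * cj x) * (x * cj x) * y := by rw [hy]; ring
    rw [e1, mul_cj, hm]
    push_cast
    ring
  have h5 : ((p : ℤ) : OK) ∣ (f : OK) * (cj x * cj x) := by
    rw [hf] at h4
    push_cast at h4
    obtain ⟨t, ht⟩ := h4
    refine ⟨t, ?_⟩
    have hpne : ((p : ℤ) : OK) ≠ 0 := by
      intro h6
      have := congrArg QuadraticAlgebra.re h6
      rw [int_re] at this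
      exact hpI.ne_zero this
    apply mul_left_cancel₀ hpne
    push_cast
    linear_combination ht
  have h6 : ((p : ℤ) : OK) ∣ cj x * cj x := by
    rw [int_dvd] at h5 ⊢
    generalize cj x * cj x = z at h5 ⊢
    have e1 : ((f : OK) * z).re = f * z.re := by
      rw [QuadraticAlgebra.re_mul, int_re, int_im]
      ring
    have e2 : ((f : OK) * z).im = f * z.im := by
      rw [QuadraticAlgebra.im_mul, int_re, int_im]
      ring
    rw [e1, e2] at h5
    exact ⟨(hpI.dvd_or_dvd h5.1).resolve_left hpf, (hpI.dvd_or_dvd h5.2).resolve_left hpf⟩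
  have h6' : ((p : ℤ) : OK) ∣ x * x := by
    have h7 := (cj_dvd (x := ((p : ℤ) : OK)) (y := cj x * cj x)).2 h6
    rw [map_mul, cj_cj, map_intCast] at h7
    exact h7
  rw [int_dvd, QuadraticAlgebra.re_mul, QuadraticAlgebra.im_mul] at h6'
  obtain ⟨h8, h9⟩ := h6'
  have hN : (p : ℤ) ∣ x.re ^ 2 + x.re * x.im + 2 * x.im ^ 2 := hpx
  -- `p` divides `7 im ^ 2` or both coordinates
  have h10 : (p : ℤ) ∣ x.re ∧ (p : ℤ) ∣ x.im := by
    have h11 : (p : ℤ) ∣ x.im * (2 * x.re + x.im) := by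
      have e : x.im * (2 * x.re + x.im) = x.re * x.im + x.im * x.re + 1 * x.im * x.im := by ring
      exact e ▸ h9
    rcases hpI.dvd_or_dvd h11 with h12 | h12
    · have h13 : (p : ℤ) ∣ x.re ^ 2 := by
        have h14 := dvd_sub hN (dvd_add (h12.mul_left x.re) (h12.mul_left (2 * x.im)))
        have e : x.re ^ 2 + x.re * x.im + 2 * x.im ^ 2 -
          (x.re * x.im + 2 * x.im * x.im) = x.re ^ 2 := by ring
        rw [e] at h14
        exact h14
      exact ⟨hpI.dvd_of_dvd_pow h13, h12⟩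
    · have h13 : (p : ℤ) ∣ 7 * x.im ^ 2 := by
        have h14 : (p : ℤ) ∣ (2 * x.re + x.im) * (2 * x.re + x.im) := h12.mul_right _
        have h15 := dvd_sub (hN.mul_left 4) h14
        have e : 7 * x.im ^ 2 = 4 * (x.re ^ 2 + x.re * x.im + 2 * x.im ^ 2) -
          (2 * x.re + x.im) * (2 * x.re + x.im) := by ring
        rw [e]
        exact h15
      rcases hpI.dvd_or_dvd h13 with h14 | h14
      · exfalso
        have h15 : (p : ℕ) ∣ 7 := by exact_mod_cast h14
        have := (Nat.prime_dvd_prime_iff_eq hp (by norm_num)).1 h15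
        exact hp7 (by exact_mod_cast this)
      · have h15 := hpI.dvd_of_dvd_pow h14
        have h16 : (p : ℤ) ∣ 2 * x.re := by
          have h17 := dvd_sub h12 h15
          have e : 2 * x.re = 2 * x.re + x.im - x.im := by ring
          rw [e]
          exact h17
        refine ⟨(hpI.dvd_or_dvd h16).resolve_left fun h17 => ?_, h15⟩
        have h18 : (p : ℕ) ∣ 2 := by exact_mod_cast h17
        have := (Nat.prime_dvd_prime_iff_eq hp Nat.prime_two).1 h18
        exact hp2 (by exact_mod_cast this)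
  have h11 : ((p : ℤ) : OK) ∣ x := int_dvd.2 h10
  have h12 : (((p : ℤ) * p : ℤ) : OK) ∣ (e : OK) := by
    push_cast
    exact (mul_dvd_mul h11 h11).trans ⟨y, hy⟩
  rw [int_dvd, int_re] at h12
  exact hpI.not_isUnit (h _ h12.1)

/-- the class of the rational integers -/
def IntCl {n : ℕ} (e : Fin n → ℤ) : Prop :=
  (∀ i, 0 < e i ∧ Squarefree (e i) ∧ e i % 8 = 1 ∧ ¬ 7 ∣ e i) ∧ Ind e

theorem adm_int {e : ℤ} (h : Squarefree e) (h8 : e % 8 = 1) (h7 : ¬ 7 ∣ e) : Adm (e : OK) := by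
  refine ⟨sqf_int h (by omega) h7, ?_, ?_⟩
  · have : (8 : OK) = ((8 : ℤ) : OK) := by norm_num
    rw [this, int_dvd]
    constructor
    · show (8 : ℤ) ∣ (e : OK).re - 1
      rw [int_re]
      omega
    · show (8 : ℤ) ∣ (e : OK).im - 0
      rw [int_im]
      omega
  · rintro ⟨t, ht⟩
    have h1 := congrArg norm ht
    rw [nm_mul, nm_int] at h1
    have h2 : norm s7 = 7 := by decide
    rw [h2] at h1
    exact h7 ((Int.prime_iff_natAbs_prime.2 (by norm_num)).dvd_of_dvd_pow ⟨_, h1⟩)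

theorem sq_int {m : ℤ} (hm : 0 < m) (h : IsSquare (m : OK)) : IsSquare m := by
  obtain ⟨y, hy⟩ := h
  have h1 := congrArg QuadraticAlgebra.re hy
  have h2 := congrArg QuadraticAlgebra.im hy
  rw [QuadraticAlgebra.re_mul, int_re] at h1
  rw [QuadraticAlgebra.im_mul, int_im] at h2
  have h3 : y.im * (2 * y.re + y.im) = 0 := by linarith
  rcases mul_eq_zero.1 h3 with h4 | h4
  · exact ⟨y.re, by rw [h1, h4]; ring⟩
  · exfalso
    have h5 : y.im = -2 * y.re := by linarith
    rw [h5] at h1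
    nlinarith [sq_nonneg y.re]

theorem inClass_int {n : ℕ} {e : Fin n → ℤ} (h : IntCl e) :
    InClass 1 (fun i => (e i : OK)) := by
  refine ⟨?_, fun i => adm_int (h.1 i).2.1 (h.1 i).2.2.1 (h.1 i).2.2.2, ?_⟩
  · have := adm_int (e := 1) squarefree_one (by norm_num) (by norm_num)
    rwa [Int.cast_one] at this
  · intro T hT h1
    have e1 : ∏ i ∈ T, (e i : OK) = ((∏ i ∈ T, e i : ℤ) : OK) := by push_cast; rfl
    rw [e1] at h1
    exact h.2 T hT (sq_int (Finset.prod_pos fun i _ => (h.1 i).1) h1)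

/-! ### The elements with a norm that is a square -/

theorem im_zero {M : OK} (hM : Adm M) {f : ℤ} (hc : IsCoprime M (f : OK))
    (h : IsSquare (norm M * f)) : M.im = 0 := by
  obtain ⟨m, hm⟩ := h
  have hM0 : M ≠ 0 := hM.1.ne_zero
  have h1 : M * cj M * (f : OK) = (m : OK) * (m : OK) := by
    rw [mul_cj]
    exact_mod_cast congrArg (fun z : ℤ => (z : OK)) hm
  have h2 : M ∣ (m : OK) := by
    have hr : IsRadical M := hM.1.isRadical
    refine hr 2 _ ?_
    rw [pow_two, ← h1, mul_assoc]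
    exact dvd_mul_right _ _
  obtain ⟨t, ht⟩ := h2
  have h3 : M ∣ cj M * (f : OK) := by
    refine ⟨t * t, ?_⟩
    apply mul_left_cancel₀ hM0
    rw [ht] at h1
    linear_combination h1
  have h4 : M ∣ cj M := hc.dvd_of_dvd_mul_right h3
  obtain ⟨u, hu⟩ := h4
  have h5 : norm u = 1 := by
    have h6 := congrArg norm hu
    rw [nm_mul] at h6
    have h7 : norm (cj M) = norm M := by
      unfold Pool.Agent.H519.KW.Fd.norm
      rw [cj_re, cj_im]
      ring
    rw [h7] at h6
    have h8 := nm_pos hM0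
    have h9 : norm M * (norm u - 1) = 0 := by linarith
    rcases mul_eq_zero.1 h9 with h10 | h10
    · omega
    · linarith
  rcases nm_one_cases h5 with rfl | rfl
  · have h6 := congrArg QuadraticAlgebra.im hu
    rw [mul_one, cj_im] at h6
    omega
  · exfalso
    apply hM.2.2
    have h6 := congrArg QuadraticAlgebra.re hu
    rw [mul_neg_one, cj_re] at h6
    have h7 : (-M).re = -M.re := rfl
    rw [h7] at h6
    refine ⟨((-M.re : ℤ) : OK), ?_⟩
    ext
    · rw [QuadraticAlgebra.re_mul, int_re, int_im]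
      show M.re = -1 * -M.re + -2 * (2 * 0)
      ring
    · rw [QuadraticAlgebra.im_mul, int_re, int_im]
      show M.im = _
      have e1 : s7.re = -1 := rfl
      have e2 : s7.im = 2 := rfl
      rw [e1, e2]
      linarith

/-! ### The density -/

theorem count_fil (m : OK) (P : OK → Prop) (X : ℕ) :
    count m P X = ((Pool.Agent.H519.Q7.ZB X).filter fun D =>
      Adm D ∧ IsCoprime D m ∧ P D).card := by
  unfold count
  apply Nat.subtype_card
  intro D
  rw [Finset.mem_filter, Pool.Agent.H519.Q7.mem_ZB, Pool.Agent.H519.KW.Dn.norm_iff]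
  tauto

theorem rat_card (X : ℕ) : ((Pool.Agent.H519.Q7.ZB X).filter fun D => D.im = 0).card ≤
    2 * Nat.sqrt X + 1 := by
  have h1 : ((Pool.Agent.H519.Q7.ZB X).filter fun D => D.im = 0).card ≤
      (Finset.Icc (-(Nat.sqrt X : ℤ)) (Nat.sqrt X)).card := by
    refine Finset.card_le_card_of_injOn (fun D => D.re) ?_ ?_
    · intro D hD
      rw [Finset.mem_coe, Finset.mem_filter, Pool.Agent.H519.Q7.mem_ZB] at hD
      have h2 := Pool.Agent.H519.Q7.nrm_eq' D
      rw [hD.2] at h2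
      have h3 : D.re ^ 2 ≤ X := by
        have : ((Pool.Agent.H519.Q7.nrm D : ℕ) : ℤ) ≤ X := by exact_mod_cast hD.1
        linarith
      have h4 : D.re.natAbs ≤ Nat.sqrt X := by
        rw [Nat.le_sqrt']
        have : (D.re.natAbs : ℤ) ^ 2 ≤ X := by rw [Int.natAbs_sq]; exact h3
        exact_mod_cast this
      rw [Finset.mem_coe, Finset.mem_Icc]
      show -(Nat.sqrt X : ℤ) ≤ D.re ∧ D.re ≤ Nat.sqrt X
      omega
    · intro a ha b hb h
      rw [Finset.mem_coe, Finset.mem_filter] at ha hb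
      ext
      · exact h
      · rw [ha.2, hb.2]
  refine h1.trans (le_of_eq ?_)
  rw [Int.card_Icc]
  omega

theorem count_pert {m : OK} {P Q : OK → Prop}
    (h : ∀ M, Adm M → IsCoprime M m → M.im ≠ 0 → P M → Q M) (X : ℕ) :
    count m P X ≤ count m Q X + (2 * Nat.sqrt X + 1) := by
  rw [count_fil, count_fil]
  refine le_trans ?_ (Nat.add_le_add_left (rat_card X) _)
  refine le_trans (Finset.card_le_card ?_) (Finset.card_union_le _ _)
  intro D hD
  rw [Finset.mem_filter] at hD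
  rw [Finset.mem_union, Finset.mem_filter, Finset.mem_filter]
  by_cases h1 : D.im = 0
  · exact Or.inr ⟨hD.1, h1⟩
  · exact Or.inl ⟨hD.1, hD.2.1, hD.2.2.1, h D hD.2.1 hD.2.2.1 h1 hD.2.2.2⟩

theorem sqrt_small {m : OK} (hm : Pool.Agent.H519.Q7.prim m) :
    Tendsto (fun X : ℕ => (2 * Nat.sqrt X + 1 : ℝ) / (count m (fun _ => True) X : ℝ)) atTop (𝓝 0) := by
  obtain ⟨c, X₀, hc, h⟩ := Pool.Agent.H519.Q7.Low.low (Pool.Agent.H519.Q7.PD m)
    (fun u hu => Pool.Agent.H519.KW.Dn.PP_of_PD hm hu)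
  have h1 : Tendsto (fun X : ℕ => (3 / c) * ((Real.sqrt X)⁻¹)) atTop (𝓝 0) := by
    have h2 : Tendsto (fun X : ℕ => (Real.sqrt X)⁻¹) atTop (𝓝 0) :=
      (Real.tendsto_sqrt_atTop.comp tendsto_natCast_atTop_atTop).inv_tendsto_atTop
    simpa using h2.const_mul (3 / c)
  refine squeeze_zero' (Eventually.of_forall fun X => by positivity) ?_ h1
  filter_upwards [eventually_ge_atTop X₀, eventually_ge_atTop 1] with X hX hX1
  have h2 := h X hX
  rw [← Pool.Agent.H519.KW.Dn.count_true hm] at h2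
  have hX' : (1 : ℝ) ≤ X := by exact_mod_cast hX1
  have hs : 1 ≤ Real.sqrt X := Real.one_le_sqrt.2 hX'
  have h3 : (Nat.sqrt X : ℝ) ≤ Real.sqrt X := by
    rw [Real.le_sqrt' (by exact_mod_cast Nat.sqrt_pos.2 hX1)]
    exact_mod_cast Nat.sqrt_le' X
  have hpos : 0 < c * (X : ℝ) := by positivity
  rw [div_le_iff₀ (lt_of_lt_of_le hpos h2)]
  have h4 : (Real.sqrt X) * Real.sqrt X = X := Real.mul_self_sqrt (by positivity)
  calc (2 * Nat.sqrt X + 1 : ℝ) ≤ 3 * Real.sqrt X := by linarith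
    _ = 3 / c * (Real.sqrt X)⁻¹ * (c * X) := by
      have h5 : (Real.sqrt X)⁻¹ * X = Real.sqrt X := by
        rw [inv_mul_eq_iff_eq_mul₀ (by positivity)]
        exact h4.symm
      have h6 : 3 / c * (Real.sqrt X)⁻¹ * (c * X) = 3 * (c / c) * ((Real.sqrt X)⁻¹ * X) := by ring
      rw [h6, h5, div_self hc.ne', mul_one]
    _ ≤ _ := mul_le_mul_of_nonneg_left h2 (by positivity)

theorem dens_pert {m : OK} (hm : Pool.Agent.H519.Q7.prim m) {P Q : OK → Prop} {y : ℝ}
    (h : ∀ M, Adm M → IsCoprime M m → M.im ≠ 0 → (P M ↔ Q M)) (hP : Density m P y) :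
    Density m Q y := by
  unfold Density at hP ⊢
  have h2 : Tendsto (fun X : ℕ => (count m Q X : ℝ) / (count m (fun _ => True) X : ℝ) -
      (count m P X : ℝ) / (count m (fun _ => True) X : ℝ)) atTop (𝓝 0) := by
    refine squeeze_zero_norm (fun X => ?_) (sqrt_small hm)
    rw [← sub_div, Real.norm_eq_abs, abs_div, Nat.abs_cast]
    refine div_le_div_of_nonneg_right ?_ (Nat.cast_nonneg _)
    rw [abs_sub_le_iff]
    have a1 : (count m P X : ℝ) ≤ (count m Q X : ℝ) + (2 * Nat.sqrt X + 1) := by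
      exact_mod_cast count_pert (fun M a b c d => (h M a b c).1 d) X
    have a2 : (count m Q X : ℝ) ≤ (count m P X : ℝ) + (2 * Nat.sqrt X + 1) := by
      exact_mod_cast count_pert (fun M a b c d => (h M a b c).2 d) X
    constructor <;> linarith
  have h3 := hP.add h2
  rw [add_zero] at h3
  refine h3.congr fun X => ?_
  ring

/-- independence of the norm and the `e_i` -/
theorem ind_cons {n : ℕ} {e : Fin n → ℤ} (h : IntCl e) {M : OK} (hM : Adm M)
    (hc : IsCoprime M (∏ i, (e i : OK))) (him : M.im ≠ 0) :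
    Ind (Fin.cons (norm M) e : Fin (n + 1) → ℤ) := by
  intro T hT hs
  set T' : Finset (Fin n) := Finset.univ.filter fun i => i.succ ∈ T with hT'
  have e1 : ∏ i ∈ T, (Fin.cons (norm M) e : Fin (n + 1) → ℤ) i =
      (if (0 : Fin (n + 1)) ∈ T then norm M else 1) * ∏ i ∈ T', e i := by
    rw [hT', Finset.prod_filter, ← Finset.prod_ite_mem_eq, Fin.prod_univ_succ]
    simp only [Fin.cons_zero, Fin.cons_succ]
  rw [e1] at hs
  by_cases h0 : (0 : Fin (n + 1)) ∈ T
  · rw [if_pos h0] at hs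
    refine him (im_zero hM (f := ∏ i ∈ T', e i) ?_ hs)
    refine hc.of_isCoprime_of_dvd_right ?_
    push_cast
    exact Finset.prod_dvd_prod_of_subset _ _ _ (Finset.subset_univ _)
  · rw [if_neg h0, one_mul] at hs
    refine h.2 T' ?_ hs
    obtain ⟨i, hi⟩ := hT
    rcases Fin.eq_zero_or_eq_succ i with h1 | ⟨j, h1⟩
    · exact absurd (h1 ▸ hi) h0
    · exact ⟨j, by rw [hT', Finset.mem_filter]; exact ⟨Finset.mem_univ _, h1 ▸ hi⟩⟩

theorem prim_prod {n : ℕ} {e : Fin n → ℤ} (h : IntCl e) :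
    Pool.Agent.H519.Q7.prim (∏ i, (e i : OK)) := by
  have := (Pool.Agent.H519.KW.Dn.mprod_class (inClass_int h) Finset.univ).1
  rwa [one_mul] at this

/-- the density for the totally real fields -/
theorem dens_hil {n : ℕ} {e : Fin n → ℤ} (h : IntCl e) {P : OK → Prop} {y : ℝ}
    (hd : Density (1 * ∏ i, (e i : OK)) (fun D => Pair P (1 * D) fun i => (e i : OK)) y) :
    Density (∏ i, (e i : OK)) (fun M => (∀ i, 0 < e i) ∧
      Ind (Fin.cons (norm M) e : Fin (n + 1) → ℤ) ∧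
      ∀ T : Finset (Fin n), ∃ D z : OK, z ≠ 0 ∧ Adm D ∧ P D ∧
        M * ∏ i ∈ T, (e i : OK) = D * z ^ 2) y := by
  rw [one_mul] at hd
  refine dens_pert (prim_prod h) (fun M hM hc him => ?_) hd
  constructor
  · rintro ⟨h1, h2⟩
    refine ⟨fun i => (h.1 i).1, ind_cons h hM hc him, fun T => ?_⟩
    obtain ⟨D, z, hz, hD, hP, he⟩ := h2 T
    exact ⟨D, z, hz, hD, hP, by rw [← he, one_mul]⟩
  · rintro ⟨h1, h2, h3⟩
    refine ⟨(inClass_int h).2.2, fun T => ?_⟩
    obtain ⟨D, z, hz, hD, hP, he⟩ := h3 T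
    exact ⟨D, z, hz, hD, hP, by rw [← he, one_mul]⟩

/-- the density for the imaginary quadratic fields -/
theorem dens_im {P : OK → Prop} {y : ℝ}
    (hd : Density (1 * ∏ i, (((fun i : Fin 0 => i.elim0) : Fin 0 → ℤ) i : OK))
      (fun D => Pair P (1 * D) fun i => (((fun i : Fin 0 => i.elim0) : Fin 0 → ℤ) i : OK)) y) :
    Density 1 (fun M => ¬ IsSquare (norm M) ∧ ∃ D z : OK, z ≠ 0 ∧ Adm D ∧ P D ∧ M = D * z ^ 2) y := by
  have e0 : (1 : OK) * ∏ i, (((fun i : Fin 0 => i.elim0) : Fin 0 → ℤ) i : OK) = 1 := by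
    rw [Finset.univ_eq_empty, Finset.prod_empty, mul_one]
  rw [e0] at hd
  have h0 : IntCl (fun i : Fin 0 => i.elim0) :=
    ⟨fun i => i.elim0, fun T hT => by
      obtain ⟨i, _⟩ := hT
      exact i.elim0⟩
  have hm : Pool.Agent.H519.Q7.prim (1 : OK) := Pool.Agent.H519.Q7.prim_one
  refine dens_pert hm (fun M hM hc him => ?_) hd
  constructor
  · rintro ⟨h1, h2⟩
    obtain ⟨D, z, hz, hD, hP, he⟩ := h2 ∅
    refine ⟨fun h3 => him (im_zero hM (f := 1) ?_ (by rwa [mul_one])), D, z, hz, hD, hP, ?_⟩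
    · rw [Int.cast_one]
      exact isCoprime_one_right
    · rw [← he, Finset.prod_empty, one_mul, mul_one]
  · rintro ⟨h1, D, z, hz, hD, hP, he⟩
    refine ⟨(inClass_int h0).2.2, fun T => ⟨D, z, hz, hD, hP, ?_⟩⟩
    rw [Finset.eq_empty_of_isEmpty T, Finset.prod_empty, one_mul, mul_one, he]

end Pool.Agent.H848.HM
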