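import Pool.Agent.H848.HM.Pf

/-!
# Project HM: induced representations and the Selmer groups (Shapiro's lemma)
-/

set_option autoImplicit false

namespace Pool.Agent.H848.HM

open IntermediateField Topology
open scoped Classical

variable {w : QBar}

/-- the inclusion of the Galois groups -/
noncomputable def jj (σ : Gal w) : GQ := ((fixingSubgroupEquiv (K w)).symm σ : (K w).fixingSubgroup)

theorem jj_apply (σ : Gal w) (x : QBar) : jj σ x = σ x := rfl

theorem jj_mem (σ : Gal w) : jj σ ∈ (K w).fixingSubgroup :=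
  ((fixingSubgroupEquiv (K w)).symm σ).2

theorem jj_mul (σ σ' : Gal w) : jj (σ * σ') = jj σ * jj σ' := by
  unfold jj
  rw [map_mul]
  rfl

theorem mem_fix {σ : GQ} : σ ∈ (K w).fixingSubgroup ↔ σ w = w := by
  rw [IntermediateField.mem_fixingSubgroup_iff]
  constructor
  · exact fun h => h w (IntermediateField.mem_adjoin_simple_self ℚ w)
  · intro h x hx
    have h1 : IntermediateField.adjoin ℚ {w} ≤
        IntermediateField.fixedField (Subgroup.zpowers σ) := by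
      rw [IntermediateField.adjoin_le_iff, Set.singleton_subset_iff, SetLike.mem_coe,
        IntermediateField.mem_fixedField_iff]
      intro f hf
      obtain ⟨n, rfl⟩ := Subgroup.mem_zpowers_iff.1 hf
      have h2 : σ ∈ MulAction.stabilizer GQ w := h
      exact (MulAction.stabilizer GQ w).zpow_mem h2 n
    exact (IntermediateField.mem_fixedField_iff _ x).1 (h1 hx) σ (Subgroup.mem_zpowers σ)

theorem exists_jj {σ : GQ} (h : σ w = w) : ∃ σ' : Gal w, jj σ' = σ := by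
  refine ⟨fixingSubgroupEquiv (K w) ⟨σ, mem_fix.2 h⟩, ?_⟩
  unfold jj
  exact congrArg Subtype.val (MulEquiv.symm_apply_apply _ _)

theorem ext_jj (χ : Chr w) (σ : Gal w) : ext χ (jj σ) = qv χ σ := by
  have h : ∃ a : Gal w, ∀ x : QBar, a x = jj σ x := ⟨σ, fun x => rfl⟩
  unfold ext
  rw [dif_pos h]
  exact congrArg (qv χ) (AlgEquiv.ext fun x => h.choose_spec x)

theorem ext_zero (χ : Chr w) {σ : GQ} (h : σ w ≠ w) : ext χ σ = 0 := by
  unfold ext
  rw [dif_neg]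
  rintro ⟨a, ha⟩
  rw [← ha w] at h
  exact h (mem_fix.1 (jj_mem a))

theorem qv_mul (χ : Chr w) (σ σ' : Gal w) : qv χ (σ * σ') = qv χ σ * qv χ σ' := by
  unfold qv zv
  rw [map_mul, Units.val_mul, PadicInt.coe_mul]

theorem ext_mul (χ : Chr w) {σ σ' : GQ} (h : σ w = w) (h' : σ' w = w) :
    ext χ (σ * σ') = ext χ σ * ext χ σ' := by
  obtain ⟨a, rfl⟩ := exists_jj h
  obtain ⟨b, rfl⟩ := exists_jj h'
  rw [← jj_mul, ext_jj, ext_jj, ext_jj, qv_mul]

/-! ### The two kinds of automorphisms -/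

theorem ww (hw : w ^ 2 = w - 2) : (1 : QBar) - w ≠ w := by
  intro h
  have h1 : w = 1 / 2 := by linear_combination (-1 / 2) * h
  rw [h1] at hw
  norm_num at hw

theorem cases_w (hw : w ^ 2 = w - 2) (σ : GQ) : σ w = w ∨ σ w = 1 - w := by
  have h1 : (σ w) ^ 2 = σ w - 2 := by
    rw [← map_pow, hw, map_sub, map_ofNat]
  have h2 : (σ w - w) * (σ w - (1 - w)) = 0 := by linear_combination h1 - hw
  rcases mul_eq_zero.1 h2 with h3 | h3
  · exact Or.inl (sub_eq_zero.1 h3)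
  · exact Or.inr (sub_eq_zero.1 h3)

theorem map_om {σ : GQ} (h : σ w = w) : σ (1 - w) = 1 - w := by
  rw [map_sub, map_one, h]

theorem map_om' {σ : GQ} (h : σ w = 1 - w) : σ (1 - w) = w := by
  rw [map_sub, map_one, h]
  ring

theorem inv_w {σ : GQ} (h : σ w = w) : σ⁻¹ w = w := by
  have h1 : σ⁻¹ (σ w) = w := AlgEquiv.symm_apply_apply σ w
  rw [h] at h1
  exact h1

theorem inv_w' {σ : GQ} (h : σ w = 1 - w) : σ⁻¹ w = 1 - w := by
  have h1 : σ⁻¹ (σ w) = w := AlgEquiv.symm_apply_apply σ w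
  rw [h, map_sub, map_one] at h1
  linear_combination -h1

theorem mul_ap (σ σ' : GQ) (x : QBar) : (σ * σ') x = σ (σ' x) := rfl

section main

variable (hw : w ^ 2 = w - 2) {τ : GQ} (hτ : τ w = 1 - w) (χ : Chr w)
include hw hτ

theorem rho_fix {σ : GQ} (h : σ w = w) (v : ℚ_[2] × ℚ_[2]) :
    rho χ τ σ v = (ext χ σ * v.1, ext χ (τ⁻¹ * σ * τ) * v.2) := by
  have h1 : ext χ (σ * τ) = 0 := ext_zero χ (by rw [mul_ap, hτ, map_om h]; exact ww hw)
  have h2 : ext χ (τ⁻¹ * σ) = 0 := ext_zero χ (by rw [mul_ap, h, inv_w' hτ]; exact ww hw)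
  unfold rho
  rw [h1, h2, zero_mul, add_zero, zero_mul, zero_add]

theorem rho_mv {σ : GQ} (h : σ w = 1 - w) (v : ℚ_[2] × ℚ_[2]) :
    rho χ τ σ v = (ext χ (σ * τ) * v.2, ext χ (τ⁻¹ * σ) * v.1) := by
  have h1 : ext χ σ = 0 := ext_zero χ (by rw [h]; exact ww hw)
  have h2 : ext χ (τ⁻¹ * σ * τ) = 0 := ext_zero χ (by
    rw [mul_ap, mul_ap, hτ, map_om' h, inv_w' hτ]
    exact ww hw)
  unfold rho
  rw [h1, h2, zero_mul, zero_add, zero_mul, add_zero]

theorem rho_mul (σ σ' : GQ) (v : ℚ_[2] × ℚ_[2]) :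
    rho χ τ (σ * σ') v = rho χ τ σ (rho χ τ σ' v) := by
  have ti := inv_w' hτ
  rcases cases_w hw σ with h | h <;> rcases cases_w hw σ' with h' | h'
  · have h3 : (σ * σ') w = w := by rw [mul_ap, h', h]
    rw [rho_fix hw hτ χ h3, rho_fix hw hτ χ h, rho_fix hw hτ χ h']
    have e1 : ext χ (σ * σ') = ext χ σ * ext χ σ' := ext_mul χ h h'
    have e2 : ext χ (τ⁻¹ * (σ * σ') * τ) = ext χ (τ⁻¹ * σ * τ) * ext χ (τ⁻¹ * σ' * τ) := by
      rw [← ext_mul χ (by rw [mul_ap, mul_ap, hτ, map_om h, map_om' ti])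
        (by rw [mul_ap, mul_ap, hτ, map_om h', map_om' ti])]
      congr 1
      group
    rw [e1, e2]
    exact Prod.ext (mul_assoc _ _ _) (mul_assoc _ _ _)
  · have h3 : (σ * σ') w = 1 - w := by rw [mul_ap, h', map_om h]
    rw [rho_mv hw hτ χ h3, rho_fix hw hτ χ h, rho_mv hw hτ χ h']
    have e1 : ext χ (σ * σ' * τ) = ext χ σ * ext χ (σ' * τ) := by
      rw [mul_assoc]
      exact ext_mul χ h (by rw [mul_ap, hτ, map_om' h'])
    have e2 : ext χ (τ⁻¹ * (σ * σ')) = ext χ (τ⁻¹ * σ * τ) * ext χ (τ⁻¹ * σ') := by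
      rw [← ext_mul χ (by rw [mul_ap, mul_ap, hτ, map_om h, map_om' ti])
        (by rw [mul_ap, h', map_om' ti])]
      congr 1
      group
    rw [e1, e2]
    exact Prod.ext (mul_assoc _ _ _) (mul_assoc _ _ _)
  · have h3 : (σ * σ') w = 1 - w := by rw [mul_ap, h', h]
    rw [rho_mv hw hτ χ h3, rho_mv hw hτ χ h, rho_fix hw hτ χ h']
    have e1 : ext χ (σ * σ' * τ) = ext χ (σ * τ) * ext χ (τ⁻¹ * σ' * τ) := by
      rw [← ext_mul χ (by rw [mul_ap, hτ, map_om' h])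
        (by rw [mul_ap, mul_ap, hτ, map_om h', map_om' ti])]
      congr 1
      group
    have e2 : ext χ (τ⁻¹ * (σ * σ')) = ext χ (τ⁻¹ * σ) * ext χ σ' := by
      rw [← ext_mul χ (by rw [mul_ap, h, map_om' ti]) h']
      congr 1
    rw [e1, e2]
    exact Prod.ext (mul_assoc _ _ _) (mul_assoc _ _ _)
  · have h3 : (σ * σ') w = w := by rw [mul_ap, h', map_om' h]
    rw [rho_fix hw hτ χ h3, rho_mv hw hτ χ h, rho_mv hw hτ χ h']
    have e1 : ext χ (σ * σ') = ext χ (σ * τ) * ext χ (τ⁻¹ * σ') := by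
      rw [← ext_mul χ (by rw [mul_ap, hτ, map_om' h]) (by rw [mul_ap, h', map_om' ti])]
      congr 1
      group
    have e2 : ext χ (τ⁻¹ * (σ * σ') * τ) = ext χ (τ⁻¹ * σ) * ext χ (σ' * τ) := by
      rw [← ext_mul χ (by rw [mul_ap, h, map_om' ti]) (by rw [mul_ap, hτ, map_om' h'])]
      congr 1
    rw [e1, e2]
    exact Prod.ext (mul_assoc _ _ _) (mul_assoc _ _ _)

/-- the automorphisms of the group of `K` that lie in `G` -/
noncomputable def cmp (w : QBar) (G : Subgroup GQ) : Sub w where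
  carrier := {σ | jj σ ∈ G}
  mul_mem' := fun {a b} ha hb => by
    show jj (a * b) ∈ G
    rw [jj_mul]
    exact G.mul_mem ha hb
  one_mem' := by
    show jj 1 ∈ G
    have e : jj (1 : Gal w) = 1 := by
      unfold jj
      rw [map_one]
      rfl
    rw [e]
    exact G.one_mem
  inv_mem' := fun {a} ha => by
    show jj a⁻¹ ∈ G
    have e : jj a⁻¹ = (jj a)⁻¹ := by
      unfold jj
      rw [map_inv]
      rfl
    rw [e]
    exact G.inv_mem ha

omit hw hτ in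
theorem jj_cont : Continuous (jj : Gal w → GQ) := by
  let f : Gal w →* GQ := ((K w).fixingSubgroup.subtype).comp
    (fixingSubgroupEquiv (K w)).symm.toMonoidHom
  have hf : ⇑f = (jj : Gal w → GQ) := rfl
  rw [← hf]
  refine continuous_of_continuousAt_one f ?_
  unfold ContinuousAt
  rw [map_one]
  intro s hs
  rw [krullTopology_mem_nhds_one_iff] at hs
  obtain ⟨E, hE, hEs⟩ := hs
  rw [Filter.mem_map, krullTopology_mem_nhds_one_iff]
  let b := Module.finBasis ℚ E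
  refine ⟨IntermediateField.adjoin (K w) (Set.range fun i => (b i : QBar)),
    IntermediateField.finiteDimensional_adjoin fun x _ => Algebra.IsIntegral.isIntegral x, ?_⟩
  intro σ hσ
  apply hEs
  rw [SetLike.mem_coe, IntermediateField.mem_fixingSubgroup_iff] at hσ ⊢
  intro x hx
  have h1 : x = ∑ i, (b.repr ⟨x, hx⟩ i) • (b i : QBar) := by
    have h2 := congrArg (fun z : E => (z : QBar)) (b.sum_repr ⟨x, hx⟩)
    simp only [AddSubmonoidClass.coe_finsetSum, IntermediateField.coe_smul] at h2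
    exact h2.symm
  refine hσ x ?_
  rw [h1]
  refine sum_mem fun i _ => ?_
  rw [Algebra.smul_def, eq_ratCast]
  exact mul_mem (SubfieldClass.ratCast_mem _ _) (IntermediateField.subset_adjoin (K w) _ ⟨i, rfl⟩)

/-- **Shapiro's lemma** for the Selmer groups. -/
theorem shapiro {G : Subgroup GQ}
    (hn : ∀ σ ∈ G, σ w = w → τ * σ * τ⁻¹ ∈ G)
    (hn' : ∀ σ ∈ G, σ w = w → τ⁻¹ * σ * τ ∈ G)
    (hS : SelZK (1 - w) (cmp w G) χ) (hI : InvZK (cmp w G) χ) :
    SelmerZero G χ τ ∧ InvariantsZero G χ τ := by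
  have ti := inv_w' hτ
  have tw : ∀ σ : Gal w, (τ * jj σ * τ⁻¹) w = w := fun σ => by
    rw [mul_ap, mul_ap, ti, map_om (mem_fix.1 (jj_mem σ)), map_om' hτ]
  have tc : ∀ σ : GQ, τ⁻¹ * (τ * σ * τ⁻¹) * τ = σ := fun σ => by group
  -- the invariants
  have hV : ∀ v : ℚ_[2] × ℚ_[2], (∀ σ ∈ G, σ w = w → rho χ τ σ v = v) → v = 0 := by
    intro v hv
    refine Prod.ext (hI v.1 fun σ hσ => ?_) (hI v.2 fun σ hσ => ?_)
    · have h1 := hv (jj σ) hσ (mem_fix.1 (jj_mem σ))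
      rw [rho_fix hw hτ χ (mem_fix.1 (jj_mem σ)), ext_jj] at h1
      exact congrArg Prod.fst h1
    · have h1 := hv _ (hn _ hσ (mem_fix.1 (jj_mem σ))) (tw σ)
      rw [rho_fix hw hτ χ (tw σ), tc, ext_jj] at h1
      exact congrArg Prod.snd h1
  refine ⟨?_, fun v hv => hV v fun σ hσ _ => hv σ hσ⟩
  intro c hc hs
  -- the first coordinate
  have c1 : ∃ y, ∀ σ ∈ cmp w G, (c (jj σ)).1 = (qv χ σ - 1) * y := by
    have g := hS (fun σ => (c (jj σ)).1) ⟨?_, ?_⟩ ⟨?_, ?_⟩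
    · obtain ⟨y, hy⟩ := g
      exact ⟨y, fun σ hσ => hy σ (Set.mem_univ _) hσ⟩
    · exact continuous_fst.comp_continuousOn (hc.cont.comp jj_cont.continuousOn fun σ hσ => hσ)
    · intro σ hσ σ' hσ'
      rw [jj_mul, hc.mul _ hσ _ hσ', rho_fix hw hτ χ (mem_fix.1 (jj_mem σ)), ext_jj]
      rfl
    · intro p _ ι hp
      obtain ⟨y, hy⟩ := hs.odd p ι hp
      refine ⟨y.1, fun σ hσ hσG => ?_⟩
      have h1 := hy (jj σ) hσ hσG
      rw [rho_fix hw hτ χ (mem_fix.1 (jj_mem σ)), ext_jj] at h1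
      show (c (jj σ)).1 = _
      rw [h1]
      show qv χ σ * y.1 - y.1 = _
      ring
    · intro ι hι
      obtain ⟨y, hy⟩ := hs.fst ι hι
      refine ⟨y, fun σ hσ hσG => ?_⟩
      have h1 := hy (jj σ) ⟨hσ, hσG⟩
      rw [ext_jj] at h1
      exact h1
  -- the second coordinate
  have c2 : ∃ y, ∀ σ ∈ cmp w G, (c (τ * jj σ * τ⁻¹)).2 = (qv χ σ - 1) * y := by
    have hmem : ∀ σ ∈ cmp w G, τ * jj σ * τ⁻¹ ∈ G := fun σ hσ => hn _ hσ (mem_fix.1 (jj_mem σ))
    have g := hS (fun σ => (c (τ * jj σ * τ⁻¹)).2) ⟨?_, ?_⟩ ⟨?_, ?_⟩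
    · obtain ⟨y, hy⟩ := g
      exact ⟨y, fun σ hσ => hy σ (Set.mem_univ _) hσ⟩
    · refine continuous_snd.comp_continuousOn (hc.cont.comp (Continuous.continuousOn ?_)
        fun σ hσ => hmem σ hσ)
      exact (continuous_const.mul jj_cont).mul continuous_const
    · intro σ hσ σ' hσ'
      have e : τ * jj (σ * σ') * τ⁻¹ = (τ * jj σ * τ⁻¹) * (τ * jj σ' * τ⁻¹) := by
        rw [jj_mul]
        group
      rw [e, hc.mul _ (hmem σ hσ) _ (hmem σ' hσ'), rho_fix hw hτ χ (tw σ), tc, ext_jj]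
      rfl
    · intro p _ ι hp
      obtain ⟨y, hy⟩ := hs.odd p (ι.comp (τ⁻¹ : GQ).toAlgHom) hp
      refine ⟨y.2, fun σ hσ hσG => ?_⟩
      have h1 := hy (τ * jj σ * τ⁻¹) (by
        obtain ⟨t, ht, ht'⟩ := hσ
        refine ⟨t, fun x => ?_, ht'⟩
        show t (ι (τ⁻¹ x)) = ι (τ⁻¹ ((τ * jj σ * τ⁻¹) x))
        rw [ht]
        congr 1
        show jj σ (τ⁻¹ x) = (τ⁻¹ * (τ * jj σ * τ⁻¹)) x
        have e : τ⁻¹ * (τ * jj σ * τ⁻¹) = jj σ * τ⁻¹ := by group
        rw [e]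
        rfl) (hmem σ hσG)
      rw [rho_fix hw hτ χ (tw σ), tc, ext_jj] at h1
      show (c (τ * jj σ * τ⁻¹)).2 = _
      rw [h1]
      show qv χ σ * y.2 - y.2 = _
      ring
    · intro ι hι
      obtain ⟨y, hy⟩ := hs.snd (ι.comp (τ⁻¹ : GQ).toAlgHom) (by
        show ‖ι (τ⁻¹ w)‖ < 1
        rw [ti]
        exact hι)
      refine ⟨y, fun σ hσ hσG => ?_⟩
      have hd : τ * jj σ * τ⁻¹ ∈ DecQ (ι.comp (τ⁻¹ : GQ).toAlgHom) := by
        obtain ⟨t, ht⟩ := hσ
        refine ⟨t, fun x => ?_⟩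
        show t (ι (τ⁻¹ x)) = ι (τ⁻¹ ((τ * jj σ * τ⁻¹) x))
        rw [ht]
        congr 1
        show jj σ (τ⁻¹ x) = (τ⁻¹ * (τ * jj σ * τ⁻¹)) x
        have e : τ⁻¹ * (τ * jj σ * τ⁻¹) = jj σ * τ⁻¹ := by group
        rw [e]
        rfl
      have h1 := hy (τ * jj σ * τ⁻¹) ⟨hd, hmem σ hσG⟩
      have h2 : ext χ (τ⁻¹ * (τ * jj σ * τ⁻¹) * τ) = qv χ σ := by rw [tc, ext_jj]
      rw [← h2]
      exact h1
  obtain ⟨y1, h1⟩ := c1
  obtain ⟨y2, h2⟩ := c2
  -- the restriction to the group of `K`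
  have key : ∀ σ ∈ G, σ w = w → c σ = rho χ τ σ (y1, y2) - (y1, y2) := by
    intro σ hσ hσw
    rw [rho_fix hw hτ χ hσw]
    refine Prod.ext ?_ ?_
    · obtain ⟨a, rfl⟩ := exists_jj hσw
      rw [h1 a hσ, ext_jj]
      show _ = qv χ a * y1 - y1
      ring
    · have h3 : (τ⁻¹ * σ * τ) w = w := by rw [mul_ap, mul_ap, hτ, map_om hσw, map_om' ti]
      obtain ⟨a, ha⟩ := exists_jj h3
      have h4 : a ∈ cmp w G := by
        show jj a ∈ G
        rw [ha]
        exact hn' σ hσ hσw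
      have h5 := h2 a h4
      rw [ha] at h5
      have e : τ * (τ⁻¹ * σ * τ) * τ⁻¹ = σ := by group
      rw [e] at h5
      rw [h5]
      show _ = ext χ (τ⁻¹ * σ * τ) * y2 - y2
      rw [← ha, ext_jj]
      ring
  refine ⟨(y1, y2), fun σ _ hσ => ?_⟩
  rcases cases_w hw σ with hσw | hσw
  · exact key σ hσ hσw
  · -- the difference is invariant
    rw [← sub_eq_zero]
    apply hV
    intro h hh hhw
    have e1 : (h * σ) = σ * (σ⁻¹ * h * σ) := by group
    have si := inv_w' hσw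
    have h6 : (σ⁻¹ * h * σ) ∈ G := G.mul_mem (G.mul_mem (G.inv_mem hσ) hh) hσ
    have h7 : (σ⁻¹ * h * σ) w = w := by rw [mul_ap, mul_ap, hσw, map_om hhw, map_om' si]
    have a1 : c (h * σ) = c h + rho χ τ h (c σ) := hc.mul h hh σ hσ
    have a2 : c (h * σ) = c σ + rho χ τ σ (c (σ⁻¹ * h * σ)) := by
      rw [e1]
      exact hc.mul σ hσ _ h6
    rw [key _ h6 h7] at a2
    rw [key h hh hhw] at a1
    have lin : ∀ (g : GQ) (u v : ℚ_[2] × ℚ_[2]), rho χ τ g (u - v) = rho χ τ g u - rho χ τ g v := by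
      intro g u v
      unfold rho
      refine Prod.ext ?_ ?_
      · simp only [Prod.fst_sub, Prod.snd_sub]; ring
      · simp only [Prod.fst_sub, Prod.snd_sub]; ring
    rw [lin, ← rho_mul hw hτ, ← e1] at a2
    rw [lin, lin, ← rho_mul hw hτ]
    have a3 := a1.symm.trans a2
    -- c h + ... 
    have a4 : rho χ τ h (c σ) = c σ + (rho χ τ (h * σ) (y1, y2) - rho χ τ σ (y1, y2)) -
        (rho χ τ h (y1, y2) - (y1, y2)) := by
      rw [← a3]
      abel
    rw [a4]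
    abel

end main

end Pool.Agent.H848.HM
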