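import Pool.Agent.H848.HM.Ind
import Pool.Agent.H848.HM.Den

/-!
# Project HM: the Selmer groups over real and imaginary fields, and the L-functions
-/

set_option autoImplicit false

open scoped Classical

namespace Pool.Agent.H848.HM

open Pool.Agent.H519.KW.Fd (OK s7 Adm Good VeryGood norm)

variable {w : QBar}

theorem mem_galF {n : ℕ} {s : Fin n → QBar} {σ : GQ} : σ ∈ GalF s ↔ ∀ i, σ (s i) = s i := by
  unfold GalF
  rw [IntermediateField.mem_fixingSubgroup_iff]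
  constructor
  · intro h i
    exact h (s i) (IntermediateField.subset_adjoin _ _ ⟨i, rfl⟩)
  · intro h x hx
    have h1 : IntermediateField.adjoin ℚ (Set.range s) ≤
        IntermediateField.fixedField (Subgroup.zpowers σ) := by
      rw [IntermediateField.adjoin_le_iff]
      rintro _ ⟨i, rfl⟩
      rw [SetLike.mem_coe, IntermediateField.mem_fixedField_iff]
      intro f hf
      obtain ⟨n, rfl⟩ := Subgroup.mem_zpowers_iff.1 hf
      have h2 : σ ∈ MulAction.stabilizer GQ (s i) := h i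
      exact (MulAction.stabilizer GQ (s i)).zpow_mem h2 n
    exact (IntermediateField.mem_fixedField_iff _ x).1 (h1 hx) σ (Subgroup.mem_zpowers σ)

theorem mem_galL {n : ℕ} {s : Fin n → QBar} {σ : Gal w} : σ ∈ GalL w s ↔ ∀ i, σ (s i) = s i := by
  rw [galL_eq]
  exact ⟨fun h i => h i (Finset.mem_univ i), fun h i _ => h i⟩

theorem cmp_galF {n : ℕ} (s : Fin n → QBar) : cmp w (GalF s) = GalL w s := by
  ext σ
  rw [mem_galL]
  exact mem_galF

theorem rt_pm {s : QBar} {a : ℤ} (h : s ^ 2 = (a : QBar)) (σ : GQ) : σ s = s ∨ σ s = -s := by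
  have h1 : (σ s) ^ 2 = s ^ 2 := by rw [← map_pow, h, map_intCast]
  exact sq_eq_sq_iff_eq_or_eq_neg.1 h1

theorem norm_galF {n : ℕ} {s : Fin n → QBar} {a : Fin n → ℤ} (h : ∀ i, s i ^ 2 = (a i : QBar))
    (τ σ : GQ) (hσ : σ ∈ GalF s) : τ * σ * τ⁻¹ ∈ GalF s := by
  rw [mem_galF] at hσ ⊢
  intro i
  show τ (σ (τ⁻¹ (s i))) = s i
  have h1 : τ (τ⁻¹ (s i)) = s i := AlgEquiv.apply_symm_apply τ (s i)
  rcases rt_pm (h i) τ⁻¹ with h2 | h2
  · rw [h2] at h1 ⊢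
    rw [hσ i, h1]
  · rw [h2] at h1 ⊢
    rw [map_neg, hσ i, h1]

theorem norm_galF' {n : ℕ} {s : Fin n → QBar} {a : Fin n → ℤ} (h : ∀ i, s i ^ 2 = (a i : QBar))
    (τ σ : GQ) (hσ : σ ∈ GalF s) : τ⁻¹ * σ * τ ∈ GalF s := by
  have := norm_galF h τ⁻¹ σ hσ
  rwa [inv_inv] at this

theorem emb_int (a : ℤ) : emb w (a : OK) = (a : QBar) := by
  unfold emb
  rw [int_re, int_im]
  push_cast
  ring

/-- the elements for the fields that contain `√(N(M))` -/
theorem pair_norm {Q : OK → Prop} {M : OK} {n : ℕ} {e : Fin n → ℤ}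
    (h : ∀ T : Finset (Fin n), ∃ D z : OK, z ≠ 0 ∧ Adm D ∧ (Q D ∧ Q (cj D)) ∧
      M * ∏ i ∈ T, (e i : OK) = D * z ^ 2) (hM : M ≠ 0) (T : Finset (Fin (n + 1))) :
    ∃ D z : OK, z ≠ 0 ∧ Adm D ∧ Q D ∧
      M * ∏ i ∈ T, (((Fin.cons (norm M) e : Fin (n + 1) → ℤ) i : ℤ) : OK) = D * z ^ 2 := by
  set T' : Finset (Fin n) := Finset.univ.filter fun i => i.succ ∈ T with hT'
  have e1 : ∏ i ∈ T, (((Fin.cons (norm M) e : Fin (n + 1) → ℤ) i : ℤ) : OK) =
      (if (0 : Fin (n + 1)) ∈ T then ((norm M : ℤ) : OK) else 1) * ∏ i ∈ T', (e i : OK) := by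
    rw [hT', Finset.prod_filter, ← Finset.prod_ite_mem_eq, Fin.prod_univ_succ]
    simp only [Fin.cons_zero, Fin.cons_succ]
  obtain ⟨D, z, hz, hD, ⟨h1, h2⟩, he⟩ := h T'
  by_cases h0 : (0 : Fin (n + 1)) ∈ T
  · refine ⟨cj D, M * cj z, ?_, adm_cj hD, h2, ?_⟩
    · refine mul_ne_zero hM fun h3 => hz ?_
      rw [← cj_cj z, h3, map_zero]
    · have h4 := congrArg cj he
      rw [map_mul, map_mul, map_pow, map_prod] at h4
      simp only [map_intCast] at h4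
      rw [e1, if_pos h0, ← mul_cj]
      linear_combination (M ^ 2) * h4
  · exact ⟨D, z, hz, hD, h1, by rw [e1, if_neg h0, one_mul, he]⟩

/-- the characters and the Selmer groups -/
theorem sel_all (hw : w ^ 2 = w - 2) {M : OK} (hM0 : M ≠ 0) :
    Iso (EK w M) (ED w (tw M)) ∧ (ED w (tw M)).IsElliptic ∧
    ∃ κ κ' : Chr w, TateModule (tw M) κ κ' ∧
    (∀ (n : ℕ) (e : Fin n → ℤ) (k : ℕ), 1 ≤ k →
      (∀ T : Finset (Fin n), ∃ D z : OK, z ≠ 0 ∧ Adm D ∧ (Gk k D ∧ Gk k (cj D)) ∧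
        M * ∏ i ∈ T, (e i : OK) = D * z ^ 2) →
      ∀ τ : GQ, τ w = 1 - w → ∀ s : Fin (n + 1) → QBar,
        (∀ i, s i ^ 2 = (((Fin.cons (norm M) e : Fin (n + 1) → ℤ) i : ℤ) : QBar)) →
        SelmerZero (GalF s) (chi κ κ' k) τ ∧ InvariantsZero (GalF s) (chi κ κ' k) τ) ∧
    (∀ k : ℕ, 1 ≤ k → (∃ D z : OK, z ≠ 0 ∧ Adm D ∧ (Gk k D ∧ Gk k (cj D)) ∧ M = D * z ^ 2) →
      ∀ τ : GQ, τ w = 1 - w → ∀ s : Fin 1 → QBar, s 0 ^ 2 = ((-7 * norm M : ℤ) : QBar) →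
        SelmerZero (GalF s) (chi κ κ' k) τ ∧ InvariantsZero (GalF s) (chi κ κ' k) τ) := by
  obtain ⟨h1, h2, κ, κ', h3, h4⟩ := all_of (w := w) hw hM0
  refine ⟨h1, h2, κ, κ', h3, ?_, ?_⟩
  · intro n e k hk hG τ hτ s hs
    obtain ⟨h5, h6⟩ := h4 (n + 1) (fun i => (((Fin.cons (norm M) e : Fin (n + 1) → ℤ) i : ℤ) : OK)) s k
      (fun i => by rw [hs i, emb_int]) hk (pair_norm hG hM0)
    rw [← cmp_galF] at h5 h6
    exact shapiro hw hτ _ (fun σ hσ _ => norm_galF hs τ σ hσ) (fun σ hσ _ => norm_galF' hs τ σ hσ)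
      h5 h6
  · intro k hk hG τ hτ s hs
    have hd : (2 * w - 1) ^ 2 = -7 := by linear_combination 4 * hw
    have hd0 : (2 * w - 1) ≠ 0 := by
      intro h
      rw [h] at hd
      norm_num at hd
    set r : Fin 1 → QBar := fun _ => s 0 / (2 * w - 1) with hr
    have hr2 : ∀ i, r i ^ 2 = (((Fin.cons (norm M) (fun i : Fin 0 => i.elim0) : Fin 1 → ℤ) i : ℤ) :
        QBar) := by
      intro i
      rw [Subsingleton.elim i 0, Fin.cons_zero, hr]
      show (s 0 / (2 * w - 1)) ^ 2 = _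
      rw [div_pow, hs, hd]
      push_cast
      ring
    obtain ⟨D, z, hz, hD, hQ, he⟩ := hG
    obtain ⟨h5, h6⟩ := h4 1 (fun i => (((Fin.cons (norm M) (fun i : Fin 0 => i.elim0) :
      Fin 1 → ℤ) i : ℤ) : OK)) r k (fun i => by rw [hr2 i, emb_int]) hk
      (pair_norm (fun T => ⟨D, z, hz, hD, hQ, by
        rw [Finset.eq_empty_of_isEmpty T, Finset.prod_empty, mul_one]
        exact he⟩) hM0)
    have hc : cmp w (GalF s) = GalL w r := by
      ext σ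
      rw [mem_galL]
      have e1 : σ ∈ cmp w (GalF s) ↔ ∀ i, jj σ (s i) = s i := mem_galF
      rw [e1]
      have e2 : σ w = w := mem_fix.1 (jj_mem σ)
      constructor
      · intro h i
        show σ (s 0 / (2 * w - 1)) = s 0 / (2 * w - 1)
        rw [map_div₀, map_sub, map_mul, map_ofNat, map_one, e2]
        congr 1
        exact h 0
      · intro h i
        rw [Subsingleton.elim i 0]
        have h7 : σ (s 0 / (2 * w - 1)) = s 0 / (2 * w - 1) := h 0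
        rw [map_div₀, map_sub, map_mul, map_ofNat, map_one, e2, div_left_inj' hd0] at h7
        exact h7
    rw [← hc] at h5 h6
    have hs' : ∀ i, s i ^ 2 = (((fun _ => -7 * norm M : Fin 1 → ℤ) i : ℤ) : QBar) := fun i => by
      rw [Subsingleton.elim i 0]
      exact hs
    exact shapiro hw hτ _ (fun σ hσ _ => norm_galF hs' τ σ hσ)
      (fun σ hσ _ => norm_galF' hs' τ σ hσ) h5 h6

/-! ### The `L`-functions -/

/-- the product of the `L`-functions of the twists -/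
theorem exists_Λ {M : OK} {n : ℕ} {e : Fin n → ℤ} {k : ℕ} (hk : 1 ≤ k)
    (hG : ∀ T : Finset (Fin n), ∃ D z : OK, z ≠ 0 ∧ Adm D ∧ Gk k D ∧
      M * ∏ i ∈ T, (e i : OK) = D * z ^ 2) :
    ∃ Λ : ℂ → ℂ, Differentiable ℂ Λ ∧ (∃ F : Finset (Fin n) → ℂ → ℂ,
      (∀ T, ∃ D z : OK, z ≠ 0 ∧ Adm D ∧ M * ∏ i ∈ T, (e i : OK) = D * z ^ 2 ∧ IsL D k (F T)) ∧
      ∀ s, Λ s = ∏ T, F T (s + k)) ∧ analyticOrderAt Λ 0 = 0 := by
  choose D z hz hD hR he using hG
  choose F hF hF0 using fun T => exists_L (hD T) hk (hR T)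
  have hd : Differentiable ℂ fun s : ℂ => ∏ T, F T (s + k) := by
    have h1 : ∀ T ∈ (Finset.univ : Finset (Finset (Fin n))),
        Differentiable ℂ fun s : ℂ => F T (s + k) := fun T _ =>
      (hF T).1.comp (differentiable_id.add_const _)
    exact Differentiable.fun_finsetProd h1
  refine ⟨fun s => ∏ T, F T (s + k), hd, ⟨F, fun T => ⟨D T, z T, hz T, hD T, he T, hF T⟩,
    fun s => rfl⟩, ?_⟩
  rw [analyticOrderAt_eq_zero]
  right
  rw [Finset.prod_ne_zero_iff]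
  intro T _
  rw [zero_add]
  exact hF0 T

theorem gk_good {k : ℕ} (hk : Odd k) {D : OK} (hA : Adm D) (h : Good D) :
    Gk k D ∧ Gk k (cj D) := ⟨gk_of hA h hk, gk_of (adm_cj hA) (good_cj hA h) hk⟩

theorem gk_very (k : ℕ) {D : OK} (hA : Adm D) (h : VeryGood D) :
    Gk k D ∧ Gk k (cj D) := ⟨gk_of' hA h k, gk_of' (adm_cj hA) (very_cj hA h) k⟩

end Pool.Agent.H848.HM
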