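import Mathlib
import Pool.Graph.R_seed8.R384.End
import Pool.Graph.R_seed8.R384.X.Mq7
import Pool.Agent.H519.KW.Van
import Pool.Agent.H519.KW.Lval
import Pool.Agent.H519.KW.Crit
import Pool.Agent.H519.KW.Mv
import Pool.Agent.H519.KW.Gb
import Pool.Agent.H848.HM.Def

/-!
# Project HM: the Selmer groups of the characters over multiquadratic extensions of `K`, and the central values

After the proof of `MP_ec4e4b_nt.OrderFormulaAllWeights` by helper519.
-/

set_option autoImplicit false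

namespace Pool.Agent.H848.HM

open WeierstrassCurve Filter Topology IsDedekindDomain
open scoped Classical
open Pool.Agent.H519.KW.Fd (OK s7 Adm Good VeryGood)

/-- The restriction of the function `c` to `H` is a continuous cocycle with values in `ℚ_2(χ)`. -/
structure CocK {w : QBar} (H : Sub w) (χ : Chr w) (c : Gal w → ℚ_[2]) : Prop where
  cont : ContinuousOn c H
  mul : ∀ σ ∈ H, ∀ τ ∈ H, c (σ * τ) = c σ + qv χ σ * c τ

/-- The restriction of `c` to the intersection of `S` and `H` is a coboundary. -/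
def TrivK {w : QBar} (H : Sub w) (χ : Chr w) (S : Set (Gal w)) (c : Gal w → ℚ_[2]) : Prop :=
  ∃ y : ℚ_[2], ∀ σ ∈ S, σ ∈ H → c σ = (qv χ σ - 1) * y

/-- The Bloch–Kato conditions over the field `L` fixed by `H`, for a character `χ` whose Hodge–Tate
weight is positive at one of the two places of `K` above `2` and not positive at the other one, which
is the one that divides `v`: the class is trivial on the inertia groups of the places of `L` prime to
`2` and on the decomposition groups of the places of `L` which divide `v`. -/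
structure SelK {w : QBar} (v : QBar) (H : Sub w) (χ : Chr w) (c : Gal w → ℚ_[2]) : Prop where
  odd : ∀ (p : ℕ) [Fact p.Prime] (ι : QBar →ₐ[ℚ] PadicAlgCl p), p ≠ 2 → TrivK H χ (Inr ι) c
  two : ∀ ι : QBar →ₐ[ℚ] PadicAlgCl 2, ‖ι v‖ < 1 → TrivK H χ (Dec ι) c

/-- All the classes of the Selmer group of `ℚ_2(χ)` over the field fixed by `H` are trivial. -/
def SelZK {w : QBar} (v : QBar) (H : Sub w) (χ : Chr w) : Prop :=
  ∀ c : Gal w → ℚ_[2], CocK H χ c → SelK v H χ c → TrivK H χ Set.univ c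

/-- The Galois group of `ℚ̄` over the field `L = K(s_1, …, s_n)`. -/
noncomputable def GalL (w : QBar) {n : ℕ} (s : Fin n → QBar) : Sub w :=
  (IntermediateField.adjoin (K w) (Set.range s)).fixingSubgroup

/-- `H^0(L, ℚ_2(χ)) = 0`, `L` being the field fixed by `H`. -/
def InvZK {w : QBar} (H : Sub w) (χ : Chr w) : Prop :=
  ∀ y : ℚ_[2], (∀ σ ∈ H, qv χ σ * y = y) → y = 0

section proof

open Pool.Agent.Y676.IS (Cu some_congr)
open Pool.Agent.R384 (WD ca cb em)

variable {w : QBar} (hw : w ^ 2 = w - 2) {D : OK}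

lemma gen_sq : gen w ^ 2 = gen w - 2 ↔ w ^ 2 = w - 2 := by
  rw [Subtype.ext_iff]
  rfl

lemma emb_eq (z : OK) : ((emb (gen w) z : K w) : QBar) = em hw z := by
  unfold emb
  rw [Pool.Agent.R384.em_apply]
  push_cast
  rfl

lemma curve_eq : (ED w D).toAffine.baseChange QBar = Cu (ca w (em hw D)) (cb w (em hw D)) := by
  have h1 : algebraMap (K w) QBar (gen w) = w := rfl
  have h2 : algebraMap (K w) QBar (emb (gen w) D) = em hw D := emb_eq hw D
  unfold ED curve Cu ca cb WeierstrassCurve.Affine.baseChange WeierstrassCurve.toAffine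
  ext
  · exact map_zero _
  · show algebraMap (K w) QBar (3 * (1 - gen w) * emb (gen w) D) = _
    rw [map_mul, map_mul, map_sub, map_one, map_ofNat, h1, h2]
  · exact map_zero _
  · show algebraMap (K w) QBar (gen w ^ 4 * emb (gen w) D ^ 2) = _
    rw [map_mul, map_pow, map_pow, h1, h2]
  · exact map_zero _

/-- the points of equal curves -/
noncomputable def tr {W W' : Affine QBar} (h : W = W') : W.Point ≃+ W'.Point := by
  subst h
  exact AddEquiv.refl _

lemma tr_some {W W' : Affine QBar} (h : W = W') {a b : QBar} (hab : W.Nonsingular a b) :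
    tr h (.some a b hab) = .some a b (h ▸ hab) := by
  subst h
  rfl

lemma tr_act (h : WD w (em hw D)) (fx : ∀ σ : Gal w, Pool.Agent.R384.Fx w (em hw D)
    (Pool.Agent.R384.rh σ)) (σ : Gal w) (P : Pts w D) :
    tr (curve_eq hw) (act σ P) = Pool.Agent.R384.act h fx σ (tr (curve_eq hw) P) := by
  rcases P with _ | ⟨a, b, hab⟩
  · show tr (curve_eq hw) (act σ 0) = Pool.Agent.R384.act h fx σ (tr (curve_eq hw) 0)
    simp only [map_zero]
  · rw [tr_some (curve_eq hw) hab]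
    exact tr_some (curve_eq hw) (a := σ.toAlgHom a) (b := σ.toAlgHom b)
      ((Affine.baseChange_nonsingular (ED w D).toAffine σ.toAlgHom.injective ..).mpr hab)

lemma elliptic (hD : D ≠ 0) (hw : w ^ 2 = w - 2) : (ED w D).IsElliptic := by
  have hg := gen_sq.2 hw
  have hg0 : gen w ≠ 0 := by
    intro h
    rw [h] at hg
    norm_num at hg
  have hg1 : 1 - gen w ≠ 0 := by
    intro h
    have h1 : gen w = 1 := (sub_eq_zero.1 h).symm
    rw [h1] at hg
    norm_num at hg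
  have hd : (emb (gen w) D : K w) ≠ 0 := by
    intro h
    have h1 := emb_eq hw D
    rw [h] at h1
    exact hD (Pool.Agent.R384.em_inj hw h1.symm)
  rw [WeierstrassCurve.isElliptic_iff, isUnit_iff_ne_zero]
  have e : (ED w D).Δ = 16 * (gen w ^ 4 * emb (gen w) D ^ 2) ^ 2 *
      ((1 - gen w) ^ 8 * emb (gen w) D ^ 2) := by
    simp only [ED, curve, WeierstrassCurve.Δ, WeierstrassCurve.b₂, WeierstrassCurve.b₄,
      WeierstrassCurve.b₆, WeierstrassCurve.b₈]
    generalize emb (gen w) D = d at *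
    generalize gen w = g at *
    have h2 : (1 - g) ^ 2 = -1 - g := by linear_combination hg
    have h4 : (1 - g) ^ 4 = 3 * g - 1 := by
      have : (1 - g) ^ 4 = ((1 - g) ^ 2) ^ 2 := by ring
      rw [this, h2]
      linear_combination hg
    have h8 : (1 - g) ^ 8 = 3 * g - 17 := by
      have : (1 - g) ^ 8 = ((1 - g) ^ 4) ^ 2 := by ring
      rw [this, h4]
      linear_combination 9 * hg
    have g4 : g ^ 4 = 2 - 3 * g := by linear_combination (g ^ 2 + g - 1) * hg
    rw [h8]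
    have e1 : 9 * (1 - g) ^ 2 - 4 * g ^ 4 = 3 * g - 17 := by
      rw [h2, g4]; ring
    rw [← e1]
    ring
  rw [e]
  exact mul_ne_zero (mul_ne_zero (by norm_num) (pow_ne_zero _ (mul_ne_zero (pow_ne_zero _ hg0)
    (pow_ne_zero _ hd)))) (mul_ne_zero (pow_ne_zero _ hg1) (pow_ne_zero _ hd))

/-! ### The isomorphism -/

lemma gen_iso {F : Type} [Field F] [CharZero F] {g d : F} (hg : g ^ 2 = g - 2) :
    (⟨Units.mk0 (1 / 2 : F) (by norm_num), -((g + 2) * d / 4), -(1 / 2), (g + 2) * d / 8⟩ :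
      VariableChange F) • twist d =
      ⟨0, 3 * (1 - g) * (d - 2 * d * g), 0, g ^ 4 * (d - 2 * d * g) ^ 2, 0⟩ := by
  unfold twist
  have hu : (((Units.mk0 (1 / 2 : F) (by norm_num))⁻¹ : Fˣ) : F) = 2 := by
    simp
  ext
  · simp only [variableChange_a₁, hu]
    norm_num
  · simp only [variableChange_a₂, hu]
    linear_combination (-6 * d) * hg
  · simp only [variableChange_a₃, hu]
    ring
  · simp only [variableChange_a₄, hu]
    linear_combination ((-4 * g ^ 4 + 7 * g ^ 2 + 7 * g - 4) * d ^ 2) * hg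
  · simp only [variableChange_a₆, hu]
    linear_combination ((-g - 10) * d ^ 3) * hg

lemma emb_em (hw : w ^ 2 = w - 2) (z : OK) : emb (gen w) z = em (gen_sq.2 hw) z := by
  rw [Pool.Agent.R384.em_apply]
  rfl

lemma emb_em' (hw : w ^ 2 = w - 2) (z : OK) : emb w z = em hw z := by
  rw [Pool.Agent.R384.em_apply]
  rfl

lemma tw_iso (hw : w ^ 2 = w - 2) (M : OK) : Iso (EK w M) (ED w (tw M)) := by
  have hg := gen_sq.2 hw
  have hs : (em hg s7 : K w) = 2 * gen w - 1 := by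
    rw [Pool.Agent.R384.em_apply]
    unfold s7
    push_cast
    ring
  have hemb : (emb (gen w) (tw M) : K w) = emb (gen w) M - 2 * emb (gen w) M * gen w := by
    rw [emb_em hw, emb_em hw, tw, map_neg, map_mul, hs]
    ring
  have h1 := gen_iso (d := emb (gen w) M) hg
  have h2 : ED w (tw M) = ⟨0, 3 * (1 - gen w) * (emb (gen w) M - 2 * emb (gen w) M * gen w), 0,
      gen w ^ 4 * (emb (gen w) M - 2 * emb (gen w) M * gen w) ^ 2, 0⟩ := by
    unfold ED curve
    rw [hemb]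
  rw [h2]
  exact ⟨_, h1⟩

lemma galL_eq {n : ℕ} (s : Fin n → QBar) : GalL w s = Pool.Agent.R384.fixs s Finset.univ := by
  ext σ
  unfold GalL
  rw [IntermediateField.mem_fixingSubgroup_iff]
  constructor
  · intro h i _
    exact h (s i) (IntermediateField.subset_adjoin _ _ ⟨i, rfl⟩)
  · intro h x hx
    have h1 : IntermediateField.adjoin (K w) (Set.range s) ≤
        IntermediateField.fixedField (Pool.Agent.R384.fixs s Finset.univ) := by
      rw [IntermediateField.adjoin_le_iff]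
      rintro _ ⟨i, rfl⟩
      rw [SetLike.mem_coe, IntermediateField.mem_fixedField_iff]
      intro f hf
      exact hf i (Finset.mem_univ i)
    exact (IntermediateField.mem_fixedField_iff _ x).1 (h1 hx) σ h

/-- the transfer -/
lemma selmer_of {v : Pool.Agent.R384.OO} {χ : Chr w} {H : Sub w}
    (h : Pool.Agent.R384.VanOn hw v χ H) {v' : QBar} (hv : Pool.Agent.R384.em hw v = v') :
    SelZK v' H χ := by
  intro c hc hs
  obtain ⟨y, hy⟩ := h c ⟨hc.cont, hc.mul⟩ (fun p _ ι hp => hs.odd p ι hp) (fun ι hι => by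
    rw [hv] at hι
    exact hs.two ι hι)
  exact ⟨y, fun σ _ h => hy σ h⟩

/-- the invariants -/
lemma inv_of {χ : Chr w} {H : Sub w} {σ : Gal w} (hσ : σ ∈ H) (h : χ σ ≠ 1) :
    InvZK H χ := by
  intro y hy
  have h1 := hy σ hσ
  have h2 : qv χ σ - 1 ≠ 0 := by
    intro h3
    apply h
    apply Units.ext
    have h4 : ((zv χ σ : ℤ_[2]) : ℚ_[2]) = ((1 : ℤ_[2]) : ℚ_[2]) := by
      push_cast
      exact sub_eq_zero.1 h3
    exact Subtype.ext h4
  have h3 : (qv χ σ - 1) * y = 0 := by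
    rw [sub_mul, one_mul, h1, sub_self]
  exact (mul_eq_zero.1 h3).resolve_left h2

/-! ### The `L`-functions of the good elements -/

lemma powerSum_eq (a b : ℤ) : ∀ n, powerSum a b n = Pool.Agent.H519.KW.powerSum a b n ∧
    powerSum a b (n + 1) = Pool.Agent.H519.KW.powerSum a b (n + 1) := by
  intro n
  induction n with
  | zero => exact ⟨rfl, rfl⟩
  | succ n ih =>
    refine ⟨ih.2, ?_⟩
    show a * powerSum a b (n + 1) - b * powerSum a b n =
      a * Pool.Agent.H519.KW.powerSum a b (n + 1) - b * Pool.Agent.H519.KW.powerSum a b n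
    rw [ih.1, ih.2]

lemma fac_eq (D : OK) (k : ℕ) (s : ℂ) : fac D k s = Pool.Agent.H519.KW.fac D k s := by
  funext v
  unfold fac
  rw [(powerSum_eq _ _ _).1]
  rfl

lemma isL_of {D : OK} {k : ℕ} {F : ℂ → ℂ} (h : Pool.Agent.H519.KW.IsL D k F) : IsL D k F := by
  refine ⟨h.1, fun s hs => ?_⟩
  rw [fac_eq]
  exact h.2 s hs

open Pool.Agent.H519.Q7 (rec_BK sup_BG)

/-- what is needed of a good element, for the weight `2 k` -/
def Gk (k : ℕ) (D : OK) : Prop := ∃ S : Finset OK, ∏ q ∈ S, q = D ∧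
  Pool.Agent.NH57.BK.GoodS S ∧ (Odd k ∨ Pool.Agent.NH57.BH.GoodX 0 0 S)

lemma gk_of {D : OK} (hA : Adm D) (h : Good D) {k : ℕ} (hk : Odd k) : Gk k D := by
  obtain ⟨S, hS, hD, hR⟩ := h
  exact ⟨S, hD, Pool.Agent.H519.KW.Gb.goodS_of hS (by rw [hD]; exact hA.2.1) hR, Or.inl hk⟩

lemma gk_of' {D : OK} (hA : Adm D) (h : VeryGood D) (k : ℕ) : Gk k D := by
  obtain ⟨S, hS, hD, hR, hB⟩ := h
  have h8 : (8 : OK) ∣ ∏ q ∈ S, q - 1 := by rw [hD]; exact hA.2.1
  exact ⟨S, hD, Pool.Agent.H519.KW.Gb.goodS_of hS h8 hR,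
    Or.inr (Pool.Agent.H519.KW.Gb.goodX_of hS h8 hR hB)⟩

lemma exists_L {D : OK} (hA : Adm D) {k : ℕ} (hk : 1 ≤ k) (h : Gk k D) :
    ∃ F : ℂ → ℂ, IsL D k F ∧ F k ≠ 0 := by
  obtain ⟨S, rfl, hS, hX⟩ := h
  obtain ⟨F, h1, h2⟩ := Pool.Agent.H519.KW.lval hS.pp hA.2.1
    (Pool.Agent.H519.KW.ad_of rec_BK sup_BG hS hA.2.1) hk
    (hX.imp_right fun h => Pool.Agent.H519.KW.det_of rec_BK sup_BG h hA.2.1)
  exact ⟨F, isL_of h1, h2⟩

lemma tw_ne {M : OK} (hM : M ≠ 0) : tw M ≠ 0 := by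
  unfold tw
  rw [neg_ne_zero]
  refine mul_ne_zero ?_ hM
  intro h
  exact absurd (congrArg QuadraticAlgebra.im h) (by decide)

/-- the characters, and the Selmer groups over the multiquadratic extensions of `K` -/
theorem all_of {M : OK} {w : QBar} (hw : w ^ 2 = w - 2) (hM0 : M ≠ 0) :
    Iso (EK w M) (ED w (tw M)) ∧ (ED w (tw M)).IsElliptic ∧
    ∃ κ κ' : Chr w, TateModule (tw M) κ κ' ∧
    ∀ (n : ℕ) (d : Fin n → OK) (s : Fin n → QBar) (k : ℕ), (∀ i, s i ^ 2 = emb w (d i)) → 1 ≤ k →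
      (∀ T : Finset (Fin n), ∃ D z : OK, z ≠ 0 ∧ Adm D ∧ Gk k D ∧ M * ∏ i ∈ T, d i = D * z ^ 2) →
      SelZK (1 - w) (GalL w s) (chi κ κ' k) ∧ InvZK (GalL w s) (chi κ κ' k) := by
  have hD := tw_ne hM0
  refine ⟨tw_iso hw M, elliptic hD hw, ?_⟩
  have h : Pool.Agent.R384.WD w (Pool.Agent.R384.em hw (tw M)) := ⟨hw, Pool.Agent.R384.em_ne hw hD⟩
  obtain ⟨r, hr⟩ : ∃ r : QBar, r ^ 2 = Pool.Agent.R384.em hw (tw M) :=
    IsAlgClosed.exists_pow_nat_eq _ (by norm_num)
  obtain ⟨I, hI⟩ : ∃ I : QBar, I ^ 2 = -1 := IsAlgClosed.exists_pow_nat_eq _ (by norm_num)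
  have fx : ∀ σ : Gal w, Pool.Agent.R384.Fx w (Pool.Agent.R384.em hw (tw M))
      (Pool.Agent.R384.rh σ) := fun σ =>
    ⟨Pool.Agent.Y715.Gi.gk_fix σ, Pool.Agent.R384.gk_em hw σ (tw M)⟩
  obtain ⟨κ, κ', x, y, kd, k8, hx, hy, ax, ay⟩ := Pool.Agent.NH57.BK.t_K8 hw hD h hr hI fx
  have td := Pool.Agent.R384.td h
  set T := tr (curve_eq hw (D := tw M)) with hT
  have hor : ∀ {p : ℕ} [Fact p.Prime] (ι : QBar →ₐ[ℚ] PadicAlgCl p) (s : QBar) (z : OK),
      s ^ 2 = Pool.Agent.R384.em hw z → ∀ σ : Gal w, σ s = s ∨ σ s = -s := fun ι s z hs σ =>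
    Pool.Agent.R384.rt_or hw hs σ
  have hIr : (I * r) ^ 2 = Pool.Agent.R384.em hw (-tw M) := by rw [mul_pow, hI, hr, map_neg]; ring
  refine ⟨κ, κ', ⟨⟨fun n => T.symm (y n), fun n => T.symm (x n), ⟨?_, ?_, ?_, ?_⟩,
    ⟨Units.continuous_val.comp kd.cont, fun σ => ?_⟩,
    ⟨Units.continuous_val.comp kd.cont', fun σ => ?_⟩⟩, ?_, ?_⟩, ?_⟩
  · show T.symm (y 0) = 0 ∧ T.symm (x 0) = 0
    rw [hx.zero, hy.zero, map_zero]
    exact ⟨rfl, rfl⟩
  · intro n
    show T.symm (y (n + 1)) + T.symm (y (n + 1)) = T.symm (y n) ∧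
      T.symm (x (n + 1)) + T.symm (x (n + 1)) = T.symm (x n)
    rw [← map_add, ← map_add, hx.dbl, hy.dbl]
    exact ⟨rfl, rfl⟩
  · intro n P hP
    have h1 : (2 ^ n : ℤ) • T P = 0 := by rw [← map_zsmul, hP, map_zero]
    obtain ⟨a, b, hab⟩ := Pool.Agent.R384.Tow.basis td hx hy h1
    refine ⟨b, a, ?_⟩
    apply T.injective
    show T P = T (b • T.symm (y n) + a • T.symm (x n))
    rw [map_add, map_zsmul, map_zsmul, T.apply_symm_apply, T.apply_symm_apply, hab, add_comm]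
  · intro n a b hab
    have h1 : T (a • T.symm (y n) + b • T.symm (x n)) = 0 := by
      show T ((fun n => a • T.symm (y n) + b • T.symm (x n)) n) = 0
      rw [show (fun n => a • T.symm (y n) + b • T.symm (x n)) n = 0 from hab, map_zero]
    rw [map_add, map_zsmul, map_zsmul, T.apply_symm_apply, T.apply_symm_apply, add_comm] at h1
    exact (Pool.Agent.R384.Tow.uniq td hx hy h1).symm
  · intro n k hk
    show act σ (T.symm (y n)) = k • T.symm (y n)
    apply T.injective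
    rw [hT, tr_act hw h fx σ, ← hT, T.apply_symm_apply, map_zsmul, T.apply_symm_apply]
    exact ay σ n k hk
  · intro n k hk
    show act σ (T.symm (x n)) = k • T.symm (x n)
    apply T.injective
    rw [hT, tr_act hw h fx σ, ← hT, T.apply_symm_apply, map_zsmul, T.apply_symm_apply]
    exact ax σ n k hk
  · rintro p _ ι hn σ ⟨τ, hτ, hin⟩
    have h1 := kd.inert p ι τ σ hτ hin hn
    unfold zv
    rcases hor ι _ _ hIr σ with h2 | h2
    · rw [h1.1 h2, Units.val_one, one_pow]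
    · rw [h1.2 h2, Units.val_neg, Units.val_one, neg_one_sq]
  · rintro p _ ι hn σ ⟨τ, hτ, hin⟩
    have h1 := kd.inert' p ι τ σ hτ hin hn
    unfold zv
    rcases hor ι _ _ hr σ with h2 | h2
    · rw [h1.1 h2, Units.val_one, one_pow]
    · rw [h1.2 h2, Units.val_neg, Units.val_one, neg_one_sq]
  · intro n d s k hs hk1 hG
    have hA : ∀ T : Finset (Fin n), ∃ D z : OK, z ≠ 0 ∧ Adm D ∧ M * ∏ i ∈ T, d i = D * z ^ 2 := by
      intro T
      obtain ⟨D, z, hz, hD, -, he⟩ := hG T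
      exact ⟨D, z, hz, hD, he⟩
    have hd0 : ∀ i, d i ≠ 0 := by
      intro i
      obtain ⟨D, z, hz, hD, he⟩ := hA {i}
      rw [Finset.prod_singleton] at he
      exact right_ne_zero_of_mul (he ▸ mul_ne_zero hD.1.ne_zero (pow_ne_zero 2 hz))
    have hE : ∀ i, s i ^ 2 = Pool.Agent.R384.em hw (d i) := fun i => by rw [hs i, emb_em' hw]
    have hom : Pool.Agent.R384.em hw Pool.Agent.R384.om = w := by
      rw [Pool.Agent.R384.em_apply]
      simp [Pool.Agent.R384.om]
    have hom' : Pool.Agent.R384.em hw (1 - Pool.Agent.R384.om) = 1 - w := by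
      rw [map_sub, map_one, hom]
    have hG' : ∀ T : Finset (Fin n), ∃ (S : Finset Pool.Agent.R384.OO) (z : Pool.Agent.R384.OO),
        Pool.Agent.NH57.BK.GoodS S ∧ (Odd k ∨ Pool.Agent.NH57.BH.GoodX 0 0 S) ∧ z ≠ 0 ∧
        tw M * ∏ i ∈ T, d i = -(Pool.Agent.R384.s7 * ∏ q ∈ S, q) * z ^ 2 := by
      intro T
      obtain ⟨D, z, hz, hA, ⟨S, hSD, hS, hX⟩, he⟩ := hG T
      refine ⟨S, z, hS, hX, hz, ?_⟩
      rw [hSD]
      unfold tw
      have : s7 = Pool.Agent.R384.s7 := rfl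
      rw [this]
      linear_combination (-Pool.Agent.R384.s7) * he
    have hmv : ∀ T : Finset (Fin n), ∃ D z : Pool.Agent.R384.OO, z ≠ 0 ∧
        ¬ Pool.Agent.R384.s7 ∣ D ∧ M * ∏ i ∈ T, d i = D * z ^ 2 := by
      intro T
      obtain ⟨D, z, hz, hD, he⟩ := hA T
      exact ⟨D, z, hz, hD.2.2, he⟩
    have hu1 : Pool.Agent.R384.nn (1 : Pool.Agent.R384.OO) = 1 := by decide
    have hu2 : Pool.Agent.R384.nn (-1 : Pool.Agent.R384.OO) = 1 := by decide
    obtain ⟨σ₁, hσ₁, hm₁⟩ := Pool.Agent.H519.KW.exists_move hw hd0 hE (x := I * r) (N := M) hu1 (by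
      rw [hIr]
      congr 1
      unfold tw
      rw [neg_neg, one_mul]
      rfl) hmv
    obtain ⟨σ₂, hσ₂, hm₂⟩ := Pool.Agent.H519.KW.exists_move hw hd0 hE (x := r) (N := M) hu2 (by
      rw [hr]
      congr 1
      unfold tw
      rw [neg_one_mul]
      rfl) hmv
    rw [galL_eq]
    rcases Nat.even_or_odd k with hkp | hkp
    · have hkp' : ¬ Odd k := Nat.not_odd_iff_even.2 hkp
      have hke : Even (k : ℤ) := by exact_mod_cast hkp
      have hko : Odd (1 - (k : ℤ)) := odd_one.sub_even hke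
      have hX : ∀ T : Finset (Fin n), ∃ (x y : ZMod 2) (S : Finset Pool.Agent.R384.OO)
          (z : Pool.Agent.R384.OO), Pool.Agent.NH57.BH.GoodX x y S ∧ z ≠ 0 ∧
          tw M * ∏ i ∈ T, d i = -(Pool.Agent.R384.s7 * ∏ q ∈ S, q) * z ^ 2 := by
        intro T
        obtain ⟨S, z, h1, h2, h3, h4⟩ := hG' T
        exact ⟨0, 0, S, z, h2.resolve_left hkp', h3, h4⟩
      have hv := fun (j : ℤ) (ϖ : Pool.Agent.R384.OO) =>
        Pool.Agent.NH57.BH.t_MQG Pool.Agent.H519.KW.vanG hw hE kd k8 hD hd0 hX j (ϖ' := ϖ)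
      exact ⟨selmer_of hw (hv k _ (Or.inl ⟨hke, rfl⟩)) hom',
        inv_of hσ₂ (Pool.Agent.H519.AW.Hz.move_even hw kd hke hm₂)⟩
    · have hko : Odd (k : ℤ) := by exact_mod_cast hkp
      have hke : Even (1 - (k : ℤ)) := odd_one.sub_odd hko
      have hX : ∀ T : Finset (Fin n), ∃ (S : Finset Pool.Agent.R384.OO)
          (z : Pool.Agent.R384.OO), Pool.Agent.NH57.BK.GoodS S ∧ z ≠ 0 ∧
          tw M * ∏ i ∈ T, d i = -(Pool.Agent.R384.s7 * ∏ q ∈ S, q) * z ^ 2 := by
        intro T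
        obtain ⟨S, z, h1, h2, h3, h4⟩ := hG' T
        exact ⟨S, z, h1, h3, h4⟩
      have hv := fun (j : ℤ) (ϖ : Pool.Agent.R384.OO) =>
        Pool.Agent.NH57.BK.t_MQ Pool.Agent.H519.KW.van hw hE kd k8 hD hd0 hX j (ϖ := ϖ)
      exact ⟨selmer_of hw (hv k _ (Or.inr ⟨hko, rfl⟩)) hom',
        inv_of hσ₁ (Pool.Agent.H519.AW.Hz.move_odd hw kd hko hm₁)⟩

end proof

end Pool.Agent.H848.HM
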